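import Mathlib

/-!
MP_7d29a1_pr, second theorem (SR): the pure recursion behind the unlucky tail. If
`T n s ≤ k (T m₁ (2 s) + T m₂ (2 s)) + 2 · 2 ^ (- k)`, `k = c₃ s ^ γ`, `m₁, m₂ < n`, for `s ≤ C n`, and
`T n s ≤ e ^ (- c₄ s)` for `s ≥ C n`, then `T n s ≤ A e ^ (- c s ^ γ)` for all `n`, `s`.
-/

set_option autoImplicit false

namespace Pool.Agent.W_7d29a1_h10

open Filter Topology

/-- The recursion of the unlucky tail. -/
theorem rec_tail {T : ℕ → ℝ → ℝ} {C c₄ c₃ γ s₀ : ℝ} {n₁ : ℕ} (hc₄ : 0 < c₄) (hc₃ : 0 < c₃) (hγ : 0 < γ)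
    (hγ1 : γ ≤ 1) (h1 : ∀ n s, T n s ≤ 1)
    (h2 : ∀ (n : ℕ) (s : ℝ), 1 ≤ n → C * n ≤ s → T n s ≤ Real.exp (-(c₄ * s)))
    (h3 : ∀ (n : ℕ) (s : ℝ), n₁ ≤ n → s₀ ≤ s → s ≤ C * n → ∃ m₁ m₂ : ℕ, 1 ≤ m₁ ∧ m₁ < n ∧ 1 ≤ m₂ ∧ m₂ < n ∧
      T n s ≤ (c₃ * s ^ γ) * (T m₁ (2 * s) + T m₂ (2 * s)) + 2 * (2 : ℝ) ^ (-(c₃ * s ^ γ))) :
    ∃ A c : ℝ, 0 < A ∧ 0 < c ∧ ∀ (n : ℕ) (s : ℝ), 1 ≤ n → 0 ≤ s → T n s ≤ A * Real.exp (-(c * s ^ γ)) := by
  set c : ℝ := min c₄ (c₃ * Real.log 2) with hc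
  have hlog2 : 0 < Real.log 2 := Real.log_pos (by norm_num)
  have hc0 : 0 < c := lt_min hc₄ (by positivity)
  set b : ℝ := c * (2 ^ γ - 1) with hb
  have h2γ : (1 : ℝ) < 2 ^ γ := Real.one_lt_rpow (by norm_num) hγ
  have hb0 : 0 < b := mul_pos hc0 (by linarith)
  -- the threshold
  obtain ⟨x₁, hx₁⟩ : ∃ x₁ : ℝ, ∀ x, x₁ ≤ x → 2 * c₃ * x * Real.exp (-(b * x)) ≤ 1 / 2 := by
    have h := Real.tendsto_pow_mul_exp_neg_atTop_nhds_zero 1
    have h' : Tendsto (fun x : ℝ => 2 * c₃ / b * ((b * x) ^ 1 * Real.exp (-(b * x)))) atTop (𝓝 (2 * c₃ / b * 0)) :=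
      (h.comp (tendsto_id.const_mul_atTop hb0)).const_mul _
    rw [mul_zero] at h'
    obtain ⟨x₁, hx₁⟩ := (h'.eventually (ge_mem_nhds (show (0 : ℝ) < 1 / 2 by norm_num))).exists_forall_of_atTop
    refine ⟨x₁, fun x hx => ?_⟩
    have := hx₁ x hx
    rw [pow_one] at this
    calc 2 * c₃ * x * Real.exp (-(b * x)) = 2 * c₃ / b * (b * x * Real.exp (-(b * x))) := by
          field_simp
      _ ≤ 1 / 2 := this
  set S : ℝ := max (max s₀ (C * (n₁ : ℝ))) 1 with hS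
  have hS1 : 1 ≤ S := le_max_right _ _
  set Y : ℝ := max x₁ (S ^ γ) with hY
  have hY0 : 0 < Y := lt_of_lt_of_le (by positivity) (le_max_right _ _)
  set A : ℝ := max 4 (Real.exp (c * Y)) with hA
  have hA4 : 4 ≤ A := le_max_left _ _
  have hA0 : 0 < A := by linarith
  refine ⟨A, c, hA0, hc0, fun n => ?_⟩
  induction n using Nat.strong_induction_on with
  | _ n ih =>
  intro s hn hs
  -- the trivial region
  by_cases hsmall : s ^ γ ≤ Y
  · refine (h1 n s).trans ?_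
    have e1 : Real.exp (c * Y) * Real.exp (-(c * s ^ γ)) ≤ A * Real.exp (-(c * s ^ γ)) :=
      mul_le_mul_of_nonneg_right (le_max_right _ _) (Real.exp_pos _).le
    have e2 : (1 : ℝ) ≤ Real.exp (c * Y) * Real.exp (-(c * s ^ γ)) := by
      rw [← Real.exp_add]
      refine Real.one_le_exp ?_
      have := mul_le_mul_of_nonneg_left hsmall hc0.le
      linarith
    exact e2.trans e1
  push Not at hsmall
  have hxs : x₁ ≤ s ^ γ := (le_max_left _ _).trans hsmall.le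
  have hSs : S < s := by
    by_contra hcon
    push Not at hcon
    have := Real.rpow_le_rpow hs hcon hγ.le
    exact absurd (this.trans (le_max_right x₁ _)) (not_le.2 hsmall)
  have hs1 : 1 ≤ s := hS1.trans hSs.le
  by_cases hbig : C * n ≤ s
  · refine (h2 n s hn hbig).trans ?_
    have e1 : c * s ^ γ ≤ c₄ * s := by
      have a1 : s ^ γ ≤ s := by
        calc s ^ γ ≤ s ^ (1 : ℝ) := Real.rpow_le_rpow_of_exponent_le hs1 hγ1
          _ = s := Real.rpow_one s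
      exact mul_le_mul (min_le_left _ _) a1 (by positivity) hc₄.le
    calc Real.exp (-(c₄ * s)) ≤ Real.exp (-(c * s ^ γ)) := Real.exp_le_exp.2 (by linarith)
      _ ≤ A * Real.exp (-(c * s ^ γ)) := le_mul_of_one_le_left (Real.exp_pos _).le (by linarith)
  push Not at hbig
  -- `n` is large
  have hCpos : 0 < C := by
    by_contra hcon
    push Not at hcon
    have : C * n ≤ 0 := mul_nonpos_of_nonpos_of_nonneg hcon (Nat.cast_nonneg n)
    linarith
  have hnbig : n₁ ≤ n := by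
    by_contra hcon
    push Not at hcon
    have h4 : (n : ℝ) ≤ (n₁ : ℝ) := by exact_mod_cast hcon.le
    have h5 := mul_le_mul_of_nonneg_left h4 hCpos.le
    have h6 : C * (n₁ : ℝ) ≤ S := (le_max_right _ _).trans (le_max_left _ _)
    linarith
  obtain ⟨m₁, m₂, hm1, hm1n, hm2, hm2n, h5⟩ :=
    h3 n s hnbig (((le_max_left _ _).trans (le_max_left _ _)).trans hSs.le) hbig.le
  have h4 := ih m₁ hm1n (2 * s) hm1 (by linarith)
  have h4' := ih m₂ hm2n (2 * s) hm2 (by linarith)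
  set x : ℝ := s ^ γ with hx
  have hx0 : 0 ≤ x := by positivity
  have e2 : (2 * s) ^ γ = 2 ^ γ * x := Real.mul_rpow (by norm_num) hs
  rw [e2] at h4 h4'
  have h6 : (c₃ * x) * (T m₁ (2 * s) + T m₂ (2 * s)) ≤ 2 * (c₃ * x) * (A * Real.exp (-(c * (2 ^ γ * x)))) := by
    have := mul_le_mul_of_nonneg_left (add_le_add h4 h4') (show 0 ≤ c₃ * x by positivity)
    linarith
  have h7 : 2 * (c₃ * x) * (A * Real.exp (-(c * (2 ^ γ * x)))) ≤ 1 / 2 * (A * Real.exp (-(c * x))) := by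
    have e3 : Real.exp (-(c * (2 ^ γ * x))) = Real.exp (-(b * x)) * Real.exp (-(c * x)) := by
      rw [← Real.exp_add, hb]
      congr 1
      ring
    have h8 := mul_le_mul_of_nonneg_right (hx₁ x hxs) (show 0 ≤ A * Real.exp (-(c * x)) by positivity)
    calc 2 * (c₃ * x) * (A * Real.exp (-(c * (2 ^ γ * x))))
        = 2 * c₃ * x * Real.exp (-(b * x)) * (A * Real.exp (-(c * x))) := by rw [e3]; ring
      _ ≤ _ := h8
  have h9 : 2 * (2 : ℝ) ^ (-(c₃ * x)) ≤ 1 / 2 * (A * Real.exp (-(c * x))) := by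
    have e4 : (2 : ℝ) ^ (-(c₃ * x)) = Real.exp (-(c₃ * Real.log 2 * x)) := by
      rw [Real.rpow_def_of_pos (by norm_num)]
      congr 1
      ring
    have e5 : Real.exp (-(c₃ * Real.log 2 * x)) ≤ Real.exp (-(c * x)) := by
      refine Real.exp_le_exp.2 ?_
      have := mul_le_mul_of_nonneg_right (min_le_right c₄ (c₃ * Real.log 2)) hx0
      linarith
    rw [e4]
    have h10 := mul_le_mul_of_nonneg_right hA4 (Real.exp_pos (-(c * x))).le
    linarith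
  linarith

end Pool.Agent.W_7d29a1_h10
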