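import Pool.Agent.W_7d29a1_h10.UnlD
import Pool.Agent.W_7d29a1_h10.Triv
import Pool.Agent.W_7d29a1_h10.RecU

/-!
MP_7d29a1_pr, second theorem (SR): THE UNLUCKY TAIL. If the unit doubles in boundedly many octaves and the polymer in a tube of the
width of the scale costs a bounded number of units, then the costs of the cheap displacements have stretched exponential tails in
the unit: `P (X (0; n, y) ≥ s EE n) ≤ A exp (- c s ^ γ)`.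
-/

set_option autoImplicit false

namespace Pool.Agent.W_7d29a1_h10

open MeasureTheory ProbabilityTheory Filter Topology Pool.Agent.W_7d29a1_F Pool.Agent.W_7d29a1_h4g
open Pool.Agent.W_7d29a1_g Pool.Agent.W_7d29a1_G

variable {μ : Measure ℝ} [IsProbabilityMeasure μ]

/-- **THE UNLUCKY TAIL**, for a given opening `κ` of the class of displacements. -/
theorem unluckyK (hμ : Pool.Agent.W_7d29a1_h47.EM μ) (hnd : Pool.Agent.W_7d29a1_h47.Nondeg μ) {κ₀ κ : ℝ} (hκ0 : 0 < κ)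
    (hκ8 : κ ≤ 1 / 8) (hκκ : 8 * κ ≤ κ₀) (hT : TubeInK μ κ₀) (hD : Dbl μ) :
    ∃ A c γ : ℝ, 0 < A ∧ 0 < c ∧ 0 < γ ∧ γ ≤ 1 ∧ ∀ (n : ℕ) (y : ℤ) (s : ℝ), 1 ≤ n → 0 ≤ y → y ≤ n →
      |(y : ℝ) - n / 2| ≤ κ * (vA μ 1 n * n) + 1 / 2 → 0 ≤ s →
        (law μ).real {η | s * EE μ n ≤ X μ 0 η 0 n y} ≤ A * Real.exp (-(c * s ^ γ)) := by
  obtain ⟨C, hC, htriv⟩ := triv hμ
  obtain ⟨c₃, γ, s₀, n₁, hc₃, hγ, hγ1, hstep⟩ := rec_step hμ hnd hκ0 hκ8 hκκ hT hD hC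
  obtain ⟨A, c, hA, hc, h⟩ := rec_tail (T := TT μ κ) (C := C) (c₄ := 1 / 2) (s₀ := s₀) (n₁ := n₁) (by norm_num) hc₃ hγ hγ1
    (TT_le_one κ) (fun n s _ hs => TT_le (Real.exp_pos _).le fun y h0 h1 _ => htriv n y s _ h0 h1 (one_le_EE n) hs) hstep
  exact ⟨A, c, γ, hA, hc, hγ, hγ1, fun n y s hn h0 h1 h2 hs => (le_TT h0 h1 h2).trans (h n s hn hs)⟩

/-- The polymer in the tube around a cheap displacement costs a bounded number of units. -/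
def TubeIn (μ : Measure ℝ) : Prop := ∃ κ₀ : ℝ, 0 < κ₀ ∧ TubeInK μ κ₀

/-- **THE UNLUCKY TAIL.** -/
theorem unlucky (hμ : Pool.Agent.W_7d29a1_h47.EM μ) (hnd : Pool.Agent.W_7d29a1_h47.Nondeg μ) (hT : TubeIn μ) (hD : Dbl μ) :
    ∃ κ A c γ : ℝ, 0 < κ ∧ 0 < A ∧ 0 < c ∧ 0 < γ ∧ γ ≤ 1 ∧ ∀ (n : ℕ) (y : ℤ) (s : ℝ), 1 ≤ n → 0 ≤ y → y ≤ n →
      |(y : ℝ) - n / 2| ≤ κ * (vA μ 1 n * n) + 1 / 2 → 0 ≤ s →
        (law μ).real {η | s * EE μ n ≤ X μ 0 η 0 n y} ≤ A * Real.exp (-(c * s ^ γ)) := by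
  obtain ⟨κ₀, hκ₀, hT⟩ := hT
  obtain ⟨A, c, γ, h⟩ := unluckyK (κ := min κ₀ 1 / 8) hμ hnd (by
    have : 0 < min κ₀ 1 := lt_min hκ₀ one_pos
    linarith) (by
    have := min_le_right κ₀ 1
    linarith) (by
    have := min_le_left κ₀ 1
    linarith) hT hD
  exact ⟨_, A, c, γ, by
    have : 0 < min κ₀ 1 := lt_min hκ₀ one_pos
    linarith, h⟩

end Pool.Agent.W_7d29a1_h10
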