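import Pool.Agent.W_7d29a1_h10.UnlC

/-!
MP_7d29a1_pr, second theorem (SR), unlucky tail: the choice of the durations.
-/

set_option autoImplicit false

namespace Pool.Agent.W_7d29a1_h10

open MeasureTheory ProbabilityTheory Filter Topology Pool.Agent.W_7d29a1_F Pool.Agent.W_7d29a1_h4g
open Pool.Agent.W_7d29a1_g Pool.Agent.W_7d29a1_G

variable {μ : Measure ℝ} [IsProbabilityMeasure μ]

omit [IsProbabilityMeasure μ] in
/-- The durations of one step (pure arithmetic). -/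
theorem durations {n M n₂ b : ℕ} (hM : 24 ≤ M) (hn₂ : 1 ≤ n₂) (hb : 1 ≤ b) (hn : M * (n₂ + 1) ≤ n)
    (hbm : 2 * n₂ * b ≤ n / M) : ∃ m₁ m₂ N τ q : ℕ, m₁ = n / M ∧ n = m₁ + (N + m₂) ∧ N = q * τ ∧ m₁ ≤ m₂ ∧ m₂ ≤ 2 * m₁ ∧
      M * m₁ ≤ n ∧ n ≤ 2 * M * m₁ ∧ 2 * n₂ ≤ τ ∧ τ ≤ m₁ ∧ m₁ ≤ 2 * τ * b ∧ b * τ ≤ m₁ ∧ n ≤ 2 * N ∧ 24 * m₁ ≤ n := by
  have hM0 : 0 < M := by omega
  obtain ⟨m₁, hm₁⟩ : ∃ m₁ : ℕ, m₁ = n / M := ⟨_, rfl⟩
  rw [← hm₁] at hbm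
  have hm₁n : n₂ + 1 ≤ m₁ := by
    rw [hm₁, Nat.le_div_iff_mul_le hM0]
    calc (n₂ + 1) * M = M * (n₂ + 1) := by ring
      _ ≤ n := hn
  have hMm : M * m₁ ≤ n := by
    rw [hm₁]
    exact Nat.mul_div_le n M
  have hnM : n ≤ 2 * M * m₁ := by
    have h1 : n < M * (m₁ + 1) := by
      rw [hm₁]
      exact Nat.lt_mul_div_succ n hM0
    have h2 : M * (m₁ + 1) ≤ M * (2 * m₁) := Nat.mul_le_mul_left _ (by omega)
    calc n ≤ M * (2 * m₁) := h1.le.trans h2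
      _ = 2 * M * m₁ := by ring
  obtain ⟨τ, hτ⟩ : ∃ τ : ℕ, τ = m₁ / b := ⟨_, rfl⟩
  have hτ2 : 2 * n₂ ≤ τ := by
    rw [hτ, Nat.le_div_iff_mul_le (by omega)]
    exact hbm
  have hτm : τ ≤ m₁ := by
    rw [hτ]
    exact Nat.div_le_self _ _
  have hτb : m₁ ≤ 2 * τ * b := by
    have h1 : m₁ < b * (τ + 1) := by
      rw [hτ]
      exact Nat.lt_mul_div_succ m₁ (by omega)
    have h2 : b * (τ + 1) ≤ b * (2 * τ) := Nat.mul_le_mul_left _ (by omega)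
    calc m₁ ≤ b * (2 * τ) := h1.le.trans h2
      _ = 2 * τ * b := by ring
  have hτb' : b * τ ≤ m₁ := by
    rw [hτ]
    exact Nat.mul_div_le m₁ b
  obtain ⟨q, hq⟩ : ∃ q : ℕ, q = (n - 2 * m₁) / τ := ⟨_, rfl⟩
  obtain ⟨r, hr⟩ : ∃ r : ℕ, r = (n - 2 * m₁) % τ := ⟨_, rfl⟩
  have hrτ : r < τ := by
    rw [hr]
    exact Nat.mod_lt _ (by omega)
  have hqr : q * τ + r = n - 2 * m₁ := by
    rw [hq, hr, mul_comm]
    exact Nat.div_add_mod _ _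
  have h24 : 24 * m₁ ≤ n := le_trans (Nat.mul_le_mul_right m₁ hM) hMm
  clear hq hr
  refine ⟨m₁, m₁ + r, q * τ, τ, q, hm₁, ?_, rfl, ?_, ?_, hMm, hnM, hτ2, hτm, hτb, hτb', ?_, h24⟩
  · clear hτb hτb' hbm hn hMm hnM
    omega
  · omega
  · clear hτb hτb' hbm hn hMm hnM
    omega
  · clear hτb hτb' hbm hn hMm hnM
    omega

/-- The width of a block: `k` lanes fit into the cone of the connections. -/
theorem width_fit {T : ℕ} (hT1 : 1 ≤ T) {wτ wm Eτ Em κ R₀ B : ℝ} {m₁ τ k : ℕ} (hτ1 : 1 ≤ τ) (hB0 : 0 ≤ B) (hκ : 0 < κ)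
    (hR : 0 ≤ R₀) (hcmp : wτ * Em ≤ 2 * wm * Eτ) (hgrow : ((m₁ : ℝ) / τ) ^ (1 / (T : ℝ)) * Eτ ≤ 2 * Em)
    (hb : B * (k : ℝ) ^ T ≤ (m₁ : ℝ) / τ) (hBb : 8 * (2 * R₀ + 6) / κ ≤ B ^ (1 / (T : ℝ))) (hEm : 1 ≤ Em) (hwτ : 0 ≤ wτ)
    (hwm : 0 ≤ wm) : (k : ℝ) * ((2 * R₀ + 6) * wτ) ≤ κ / 2 * wm := by
  have hTr : (0 : ℝ) < T := by exact_mod_cast hT1
  have hτr : (0 : ℝ) < τ := by exact_mod_cast hτ1
  have hγT : (T : ℝ) * (1 / (T : ℝ)) = 1 := by field_simp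
  obtain ⟨γ, hγ⟩ : ∃ γ : ℝ, γ = 1 / (T : ℝ) := ⟨_, rfl⟩
  have hγ0 : 0 < γ := by rw [hγ]; positivity
  rw [← hγ] at hgrow hBb hγT
  have h3 : B ^ γ * k ≤ ((m₁ : ℝ) / τ) ^ γ := by
    calc B ^ γ * k = (B * (k : ℝ) ^ T) ^ γ := by
          rw [Real.mul_rpow hB0 (by positivity), ← Real.rpow_natCast (k : ℝ) T, ← Real.rpow_mul (by positivity), hγT,
            Real.rpow_one]
      _ ≤ _ := Real.rpow_le_rpow (by positivity) hb hγ0.le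
  obtain ⟨g, hg⟩ : ∃ g : ℝ, g = ((m₁ : ℝ) / τ) ^ γ := ⟨_, rfl⟩
  have hg0 : 0 ≤ g := by rw [hg]; positivity
  rw [← hg] at h3 hgrow
  have h5 : wτ * g * Em ≤ 4 * wm * Em := by
    calc wτ * g * Em = (wτ * Em) * g := by ring
      _ ≤ (2 * wm * Eτ) * g := mul_le_mul_of_nonneg_right hcmp hg0
      _ = 2 * wm * (g * Eτ) := by ring
      _ ≤ 2 * wm * (2 * Em) := mul_le_mul_of_nonneg_left hgrow (by positivity)
      _ = _ := by ring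
  have h6 : wτ * g ≤ 4 * wm := le_of_mul_le_mul_right h5 (by linarith)
  have h7 : 8 * (2 * R₀ + 6) / κ * k ≤ g := (mul_le_mul_of_nonneg_right hBb (Nat.cast_nonneg k)).trans h3
  have h8 : wτ * (8 * (2 * R₀ + 6) / κ * k) ≤ 4 * wm := (mul_le_mul_of_nonneg_left h7 hwτ).trans h6
  have h9 : κ / 8 * (wτ * (8 * (2 * R₀ + 6) / κ * k)) = (k : ℝ) * ((2 * R₀ + 6) * wτ) := by
    field_simp
  rw [← h9]
  calc κ / 8 * (wτ * (8 * (2 * R₀ + 6) / κ * k)) ≤ κ / 8 * (4 * wm) := mul_le_mul_of_nonneg_left h8 (by positivity)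
    _ = κ / 2 * wm := by ring

omit [IsProbabilityMeasure μ] in
/-- The unit of a connection. -/
theorem unit_conn {T M m n : ℕ} (hT1 : 1 ≤ T) (hM : M = 2 * 12 ^ T) (hm : 1 ≤ m) (hmn : M * m ≤ 2 * n) {Em En : ℝ}
    (hEm : 0 ≤ Em) (hgrow : ((n : ℝ) / m) ^ (1 / (T : ℝ)) * Em ≤ 2 * En) : 6 * Em ≤ En := by
  have hTr : (0 : ℝ) < T := by exact_mod_cast hT1
  have hmr : (0 : ℝ) < m := by exact_mod_cast hm
  have h2 : (12 : ℝ) ≤ ((n : ℝ) / m) ^ (1 / (T : ℝ)) := by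
    have h3 : ((12 : ℝ) ^ (T : ℝ)) ≤ (n : ℝ) / m := by
      rw [le_div_iff₀ hmr, Real.rpow_natCast]
      have h5 : 12 ^ T * m ≤ n := by
        rw [hM] at hmn
        have : 2 * (12 ^ T * m) ≤ 2 * n := by
          calc 2 * (12 ^ T * m) = 2 * 12 ^ T * m := by ring
            _ ≤ 2 * n := hmn
        omega
      exact_mod_cast h5
    calc (12 : ℝ) = ((12 : ℝ) ^ (T : ℝ)) ^ (1 / (T : ℝ)) := by
          rw [← Real.rpow_mul (by norm_num), mul_one_div_cancel hTr.ne', Real.rpow_one]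
      _ ≤ _ := Real.rpow_le_rpow (by positivity) h3 (by positivity)
  have h3 : 12 * Em ≤ 2 * En := (mul_le_mul_of_nonneg_right h2 hEm).trans hgrow
  linarith

omit [IsProbabilityMeasure μ] in
/-- The number of lanes. -/
theorem lanes_number {T : ℕ} (hT1 : 1 ≤ T) {c₃ s : ℝ} (hc0 : 0 < c₃) (hc1 : c₃ ≤ 1) (hs1 : 1 ≤ s)
    (hs : (1 / c₃) ^ (T : ℝ) ≤ s) : ∃ k : ℕ, 1 ≤ k ∧ (k : ℝ) ≤ c₃ * s ^ (1 / (T : ℝ)) ∧
      c₃ * s ^ (1 / (T : ℝ)) < k + 1 ∧ (k : ℝ) ^ T ≤ c₃ * s := by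
  have hTr : (0 : ℝ) < T := by exact_mod_cast hT1
  have hsp : 0 < s := by linarith
  have hγT : (T : ℝ) * (1 / (T : ℝ)) = 1 := by field_simp
  have hγT' : (1 / (T : ℝ)) * T = 1 := by field_simp
  obtain ⟨x, hx⟩ : ∃ x : ℝ, x = c₃ * s ^ (1 / (T : ℝ)) := ⟨_, rfl⟩
  have hx1 : 1 ≤ x := by
    have h1 : (1 / c₃ : ℝ) ≤ s ^ (1 / (T : ℝ)) := by
      calc (1 / c₃ : ℝ) = ((1 / c₃) ^ (T : ℝ)) ^ (1 / (T : ℝ)) := by
            rw [← Real.rpow_mul (by positivity), hγT, Real.rpow_one]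
        _ ≤ _ := Real.rpow_le_rpow (by positivity) hs (by positivity)
    rw [hx]
    calc (1 : ℝ) = c₃ * (1 / c₃) := by field_simp
      _ ≤ _ := mul_le_mul_of_nonneg_left h1 hc0.le
  have hkx : ((⌊x⌋₊ : ℕ) : ℝ) ≤ x := Nat.floor_le (by linarith)
  refine ⟨⌊x⌋₊, Nat.le_floor (by exact_mod_cast hx1), by rw [← hx]; exact hkx, by
    rw [← hx]
    exact Nat.lt_floor_add_one x, ?_⟩
  have h1 : ((⌊x⌋₊ : ℕ) : ℝ) ^ T ≤ x ^ T := pow_le_pow_left₀ (by positivity) hkx T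
  have h2 : x ^ T = c₃ ^ T * s := by
    rw [hx, mul_pow, ← Real.rpow_natCast (s ^ (1 / (T : ℝ))) T, ← Real.rpow_mul hsp.le, hγT', Real.rpow_one]
  have h3 : c₃ ^ T ≤ c₃ := by
    calc c₃ ^ T ≤ c₃ ^ 1 := pow_le_pow_of_le_one hc0.le hc1 hT1
      _ = c₃ := pow_one _
  calc ((⌊x⌋₊ : ℕ) : ℝ) ^ T ≤ c₃ ^ T * s := h1.trans_eq h2
    _ ≤ c₃ * s := mul_le_mul_of_nonneg_right h3 hsp.le

/-- One step of the recursion. -/
theorem rec_step (hμ : Pool.Agent.W_7d29a1_h47.EM μ) (hnd : Pool.Agent.W_7d29a1_h47.Nondeg μ) {κ₀ κ : ℝ} (hκ0 : 0 < κ)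
    (hκ8 : κ ≤ 1 / 8) (hκκ : 8 * κ ≤ κ₀) (hT : TubeInK μ κ₀) (hD : Dbl μ)
    {C : ℝ} (hC : 0 < C) : ∃ (c₃ γ s₀ : ℝ) (n₁ : ℕ), 0 < c₃ ∧ 0 < γ ∧ γ ≤ 1 ∧
      ∀ (n : ℕ) (s : ℝ), n₁ ≤ n → s₀ ≤ s → s ≤ C * n → ∃ m₁ m₂ : ℕ, 1 ≤ m₁ ∧ m₁ < n ∧ 1 ≤ m₂ ∧ m₂ < n ∧
        TT μ κ n s ≤ (c₃ * s ^ γ) * (TT μ κ m₁ (2 * s) + TT μ κ m₂ (2 * s)) + 2 * (2 : ℝ) ^ (-(c₃ * s ^ γ)) := by
  obtain ⟨R₀, Ct, n_t, hR₀, htube⟩ := hT
  obtain ⟨T, n_g, hT1, hgrow⟩ := EE_grow hD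
  obtain ⟨n_c, hcmp⟩ := wd_cmp hμ hnd
  have hTr : (0 : ℝ) < T := by exact_mod_cast hT1
  obtain ⟨n_w, hw⟩ := wd_large hμ hnd hD (1 / κ)
  -- constants
  obtain ⟨M, hM⟩ : ∃ M : ℕ, M = 2 * 12 ^ T := ⟨_, rfl⟩
  have hM24 : 24 ≤ M := by
    have : 12 ^ 1 ≤ 12 ^ T := Nat.pow_le_pow_right (by norm_num) hT1
    omega
  obtain ⟨B, hB1, hBb⟩ : ∃ B : ℕ, 1 ≤ B ∧ 8 * (2 * R₀ + 6) / κ ≤ (B : ℝ) ^ (1 / (T : ℝ)) := by
    have hb₀0 : 0 < 8 * (2 * R₀ + 6) / κ := by positivity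
    refine ⟨⌈(8 * (2 * R₀ + 6) / κ) ^ (T : ℝ)⌉₊ + 1, by omega, ?_⟩
    have h1 : (8 * (2 * R₀ + 6) / κ) ^ (T : ℝ) ≤ ((⌈(8 * (2 * R₀ + 6) / κ) ^ (T : ℝ)⌉₊ + 1 : ℕ) : ℝ) := by
      push_cast
      have := Nat.le_ceil ((8 * (2 * R₀ + 6) / κ) ^ (T : ℝ))
      linarith
    calc 8 * (2 * R₀ + 6) / κ = ((8 * (2 * R₀ + 6) / κ) ^ (T : ℝ)) ^ (1 / (T : ℝ)) := by
          rw [← Real.rpow_mul hb₀0.le, mul_one_div_cancel hTr.ne', Real.rpow_one]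
      _ ≤ _ := Real.rpow_le_rpow (by positivity) h1 (by positivity)
  obtain ⟨n₂, hn₂1, hn₂t, hn₂g, hn₂w, hn₂c⟩ : ∃ n₂ : ℕ, 1 ≤ n₂ ∧ n_t ≤ n₂ ∧ n_g ≤ n₂ ∧ n_w ≤ n₂ ∧ n_c ≤ n₂ :=
    ⟨n_t + n_g + n_w + n_c + 1, by omega, by omega, by omega, by omega, by omega⟩
  obtain ⟨Ct', hCt', hCt'0⟩ : ∃ Ct' : ℝ, Ct ≤ Ct' ∧ 0 ≤ Ct' := ⟨max Ct 0, le_max_left _ _, le_max_right _ _⟩
  have hMr : (0 : ℝ) < M := by exact_mod_cast (by omega : 0 < M)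
  have hBr : (1 : ℝ) ≤ B := by exact_mod_cast hB1
  have hn₂r : (1 : ℝ) ≤ n₂ := by exact_mod_cast hn₂1
  obtain ⟨c₃, hc₃0, hc₃1, hca, hcb⟩ : ∃ c₃ : ℝ, 0 < c₃ ∧ c₃ ≤ 1 ∧ c₃ * (4 * M * n₂ * B * C) ≤ 1 ∧
      c₃ * (24 * Ct' * M * B) ≤ 1 := by
    have h1 : 0 ≤ 4 * (M : ℝ) * n₂ * B * C := by positivity
    have h2 : 0 ≤ 24 * Ct' * (M : ℝ) * B := by positivity
    have hK : 0 < 4 * (M : ℝ) * n₂ * B * C + 24 * Ct' * M * B + 1 := by linarith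
    refine ⟨1 / (4 * (M : ℝ) * n₂ * B * C + 24 * Ct' * M * B + 1), by positivity, ?_, ?_, ?_⟩
    · rw [div_le_one hK]
      linarith
    · rw [one_div, inv_mul_le_iff₀ hK]
      linarith
    · rw [one_div, inv_mul_le_iff₀ hK]
      linarith
  refine ⟨c₃, 1 / (T : ℝ), max 1 ((1 / c₃) ^ (T : ℝ)), M * (n₂ + 1), hc₃0, by positivity, ?_, fun n s hn hs0 hsC => ?_⟩
  · rw [div_le_one hTr]
    exact_mod_cast hT1
  have hs1 : 1 ≤ s := (le_max_left _ _).trans hs0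
  have hsp : 0 < s := by linarith
  obtain ⟨k, hk1, hkx, hxk, hkT⟩ := lanes_number hT1 hc₃0 hc₃1 hs1 ((le_max_right _ _).trans hs0)
  have hb1 : 1 ≤ B * k ^ T := Nat.one_le_iff_ne_zero.2 (by positivity)
  have hbr : ((B * k ^ T : ℕ) : ℝ) ≤ B * (c₃ * s) := by
    push_cast
    exact mul_le_mul_of_nonneg_left hkT (by positivity)
  have hM0 : 0 < M := by omega
  have hbm : 2 * n₂ * (B * k ^ T) ≤ n / M := by
    have hm₁n : n₂ + 1 ≤ n / M := by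
      rw [Nat.le_div_iff_mul_le hM0]
      calc (n₂ + 1) * M = M * (n₂ + 1) := by ring
        _ ≤ n := hn
    have hnM : n ≤ 2 * M * (n / M) := by
      have h1 : n < M * (n / M + 1) := Nat.lt_mul_div_succ n hM0
      have h2 : M * (n / M + 1) ≤ M * (2 * (n / M)) := Nat.mul_le_mul_left _ (by omega)
      calc n ≤ M * (2 * (n / M)) := h1.le.trans h2
        _ = 2 * M * (n / M) := by ring
    have h1 : ((2 * n₂ * (B * k ^ T) : ℕ) : ℝ) ≤ ((n / M : ℕ) : ℝ) := by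
      have h2 : (n : ℝ) ≤ 2 * M * ((n / M : ℕ) : ℝ) := by exact_mod_cast hnM
      have h4 : c₃ * s ≤ c₃ * (C * (2 * M * ((n / M : ℕ) : ℝ))) := by
        refine mul_le_mul_of_nonneg_left (hsC.trans ?_) hc₃0.le
        exact mul_le_mul_of_nonneg_left h2 hC.le
      calc ((2 * n₂ * (B * k ^ T) : ℕ) : ℝ) = 2 * n₂ * ((B * k ^ T : ℕ) : ℝ) := by push_cast; ring
        _ ≤ 2 * n₂ * (B * (c₃ * (C * (2 * M * ((n / M : ℕ) : ℝ))))) := by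
            refine mul_le_mul_of_nonneg_left (hbr.trans ?_) (by positivity)
            exact mul_le_mul_of_nonneg_left h4 (by positivity)
        _ = c₃ * (4 * M * n₂ * B * C) * ((n / M : ℕ) : ℝ) := by ring
        _ ≤ 1 * ((n / M : ℕ) : ℝ) := mul_le_mul_of_nonneg_right hca (Nat.cast_nonneg _)
        _ = ((n / M : ℕ) : ℝ) := one_mul _
    exact_mod_cast h1
  obtain ⟨m₁, m₂, N, τ, q, hm₁, hsum, hNq, hm12, hm21, hMm, hnM, hτ2, hτm, hτb, hτb', hnN, h24⟩ :=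
    durations hM24 hn₂1 hb1 hn hbm
  have hm₁n : 2 * n₂ ≤ m₁ := hτ2.trans hτm
  have e1 : 1 ≤ τ := by omega
  have e2 : 1 ≤ m₁ := by omega
  have e3 : τ ≤ n := by omega
  have e4 : m₁ < n := by omega
  have e5 : m₂ < n := by omega
  have hτr : (0 : ℝ) < τ := by exact_mod_cast e1
  have hP : Par μ κ₀ κ R₀ Ct' s n m₁ m₂ N τ q k := by
    have h1 := one_le_EE (μ := μ) m₁
    have h2 := one_le_EE (μ := μ) m₂
    refine ⟨by omega, by omega, by omega, hsum, hnN, hNq, e1, e3, hκ0, hκ8, hκκ, hR₀, hCt'0, hsp, ?_, ?_, ?_, ?_, ?_, ?_, ?_⟩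
    · refine unit_conn hT1 hM e2 ?_ (by linarith) (hgrow m₁ n (by omega) e2 (by omega))
      omega
    · refine unit_conn hT1 hM (by omega) ?_ (by linarith) (hgrow m₂ n (by omega) (by omega) (by omega))
      calc M * m₂ ≤ M * (2 * m₁) := Nat.mul_le_mul_left _ hm21
        _ = 2 * (M * m₁) := by ring
        _ ≤ 2 * n := Nat.mul_le_mul_left _ hMm
    · have := hw τ (by omega)
      rw [div_le_iff₀ hκ0] at this
      linarith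
    · refine width_fit hT1 e1 (by linarith : (0 : ℝ) ≤ B) hκ0 hR₀ (hcmp τ m₁ e1 hτm (by omega))
        (hgrow τ m₁ (by omega) e1 hτm) ?_ hBb h1 (wd_nonneg hμ τ) (wd_nonneg hμ m₁)
      rw [le_div_iff₀ hτr]
      have : ((B * k ^ T * τ : ℕ) : ℝ) ≤ m₁ := by exact_mod_cast hτb'
      push_cast at this
      exact this
    · have h3 := hcmp m₁ m₂ e2 hm12 (by omega)
      have h4 := EE_mono (μ := μ) hm12
      have h5 := wd_nonneg hμ m₂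
      have h6 : wd μ m₁ * EE μ m₂ ≤ (2 * wd μ m₂) * EE μ m₂ :=
        h3.trans (mul_le_mul_of_nonneg_left h4 (by positivity))
      exact le_of_mul_le_mul_right h6 (by linarith)
    · have h3 : (q : ℝ) * τ ≤ n := by
        have : q * τ ≤ n := by rw [← hNq]; omega
        exact_mod_cast this
      have h4 : (n : ℝ) ≤ 4 * M * B * (c₃ * s) * τ := by
        have h5 : n ≤ 2 * M * (2 * τ * (B * k ^ T)) := hnM.trans (Nat.mul_le_mul_left _ hτb)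
        have h6 : (n : ℝ) ≤ 2 * M * (2 * τ * ((B * k ^ T : ℕ) : ℝ)) := by exact_mod_cast h5
        refine h6.trans ?_
        calc (2 : ℝ) * M * (2 * τ * ((B * k ^ T : ℕ) : ℝ)) = 4 * M * τ * ((B * k ^ T : ℕ) : ℝ) := by ring
          _ ≤ 4 * M * τ * (B * (c₃ * s)) := mul_le_mul_of_nonneg_left hbr (by positivity)
          _ = _ := by ring
      have h5 : (q : ℝ) ≤ 4 * M * B * (c₃ * s) := le_of_mul_le_mul_right (h3.trans h4) hτr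
      have h6 : EE μ τ ≤ EE μ n := EE_mono (μ := μ) e3
      have h7 := one_le_EE (μ := μ) τ
      have h8 : (q : ℝ) * (Ct' * EE μ τ) ≤ (4 * M * B * (c₃ * s)) * (Ct' * EE μ n) :=
        mul_le_mul h5 (mul_le_mul_of_nonneg_left h6 hCt'0) (by positivity) (by positivity)
      have h9 : 6 * ((4 * M * B * (c₃ * s)) * (Ct' * EE μ n)) = c₃ * (24 * Ct' * M * B) * (s * EE μ n) := by ring
      have h10 : c₃ * (24 * Ct' * M * B) * (s * EE μ n) ≤ 1 * (s * EE μ n) :=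
        mul_le_mul_of_nonneg_right hcb (by
          have := one_le_EE (μ := μ) n
          positivity)
      linarith
    · intro z hz0 hz1 hz2
      obtain ⟨h3, h4⟩ := htube τ (by omega) z hz0 hz1 hz2
      refine ⟨h3, h4.trans ?_⟩
      have := one_le_EE (μ := μ) τ
      exact mul_le_mul_of_nonneg_right hCt' (by linarith)
  refine ⟨m₁, m₂, e2, e4, by omega, e5, (hP.step hμ).trans ?_⟩
  have h1 : 0 ≤ TT μ κ m₁ (2 * s) + TT μ κ m₂ (2 * s) := add_nonneg (TT_nonneg _ _ _) (TT_nonneg _ _ _)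
  refine add_le_add (mul_le_mul_of_nonneg_right hkx h1) ?_
  have h2 : (1 / 2 : ℝ) ^ k = 2 * (2 : ℝ) ^ (-((k : ℝ) + 1)) := by
    rw [Real.rpow_neg (by norm_num), Real.rpow_add (by norm_num), Real.rpow_natCast, Real.rpow_one, one_div, inv_pow]
    field_simp
  rw [h2]
  refine mul_le_mul_of_nonneg_left ?_ (by norm_num)
  exact Real.rpow_le_rpow_of_exponent_le (by norm_num) (by linarith)

end Pool.Agent.W_7d29a1_h10
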