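import Pool.Agent.W_7d29a1_G.FR0
import Pool.Agent.W_7d29a1_g.CrossRec

/-!
MP_7d29a1_pr, second theorem (SR), unlucky tail: one lane (a straight tube cut into blocks of duration `τ`) and `k` disjoint
lanes.
-/

set_option autoImplicit false

namespace Pool.Agent.W_7d29a1_h10

open MeasureTheory ProbabilityTheory Filter Topology Pool.Agent.W_7d29a1_F Pool.Agent.W_7d29a1_h4g
open Pool.Agent.W_7d29a1_g Pool.Agent.W_7d29a1_G

variable {μ : Measure ℝ} [IsProbabilityMeasure μ]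

/-- The mean of the positive part of the cost of the polymer in the region `R`. -/
noncomputable def pR (μ : Measure ℝ) (R : Set Pt) (a : Pt) (n : ℕ) (y : ℤ) : ℝ :=
  ∫ η, max (-Real.log (WR μ 0 R η a n y)) 0 ∂(law μ)

omit [IsProbabilityMeasure μ] in
theorem Zr_mono_on {R R' : Set Pt} (η : Env) (a : Pt) (n : ℕ) (y : ℤ)
    (h : ∀ p ∈ R, a.1 < p.1 → p.1 ≤ a.1 + n → p ∈ R') : Zr R η a n y ≤ Zr R' η a n y := by
  induction n generalizing y with
  | zero => rfl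
  | succ n ih =>
    have ih' := fun y => ih y fun p hp h1 h2 => h p hp h1 (by push_cast; linarith)
    show R.indicator (fun p => Real.exp (η p)) (a.1 + (n + 1), a.2 + y) * (Zr R η a n y + Zr R η a n (y - 1)) ≤
      R'.indicator (fun p => Real.exp (η p)) (a.1 + (n + 1), a.2 + y) * (Zr R' η a n y + Zr R' η a n (y - 1))
    have h1 : R.indicator (fun p => Real.exp (η p)) (a.1 + ((n : ℤ) + 1), a.2 + y) ≤
        R'.indicator (fun p => Real.exp (η p)) (a.1 + ((n : ℤ) + 1), a.2 + y) := by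
      by_cases hR : ((a.1 + ((n : ℤ) + 1), a.2 + y) : Pt) ∈ R
      · have hR' := h _ hR (by show a.1 < a.1 + ((n : ℤ) + 1); omega)
          (by show a.1 + ((n : ℤ) + 1) ≤ a.1 + ((n + 1 : ℕ) : ℤ); push_cast; omega)
        rw [Set.indicator_of_mem hR, Set.indicator_of_mem hR']
      · rw [Set.indicator_of_notMem hR]
        exact Set.indicator_nonneg (fun _ _ => (Real.exp_pos _).le) _
    refine mul_le_mul h1 (add_le_add (ih' y) (ih' (y - 1))) (add_nonneg (Zr_nonneg _ _ _ _ _) (Zr_nonneg _ _ _ _ _))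
      (Set.indicator_nonneg (fun _ _ => (Real.exp_pos _).le) _)

omit [IsProbabilityMeasure μ] in
theorem WR_mono_on {s : ℝ} {R R' : Set Pt} (η : Env) (a : Pt) (n : ℕ) (y : ℤ)
    (h : ∀ p ∈ R, a.1 < p.1 → p.1 ≤ a.1 + n → p ∈ R') : WR μ s R η a n y ≤ WR μ s R' η a n y := by
  unfold WR
  exact mul_le_mul_of_nonneg_left (Zr_mono_on η a n y h) (Real.exp_pos _).le

omit [IsProbabilityMeasure μ] in
theorem WR_mul_le {s : ℝ} (R : Set Pt) (η : Env) (a : Pt) (m n : ℕ) {k : ℤ} (y : ℤ) (h0 : 0 ≤ k) (h1 : k ≤ m) :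
    WR μ s R η a m k * WR μ s R η (a.1 + m, a.2 + k) n y ≤ WR μ s R η a (m + n) (k + y) := by
  rw [WR_add R η a m n (k + y)]
  have h := Finset.single_le_sum (f := fun k' : ℤ => WR μ s R η a m k' *
    WR μ s R η (a.1 + m, a.2 + k') n (k + y - k')) (fun k' _ => mul_nonneg (WR_nonneg _ _ _ _ _) (WR_nonneg _ _ _ _ _))
    (Finset.mem_Icc.2 ⟨h0, h1⟩)
  simpa using h

/-- The boundary of the blocks of a lane of slope `c`. -/
noncomputable def bp (c : ℝ) (τ i : ℕ) : ℤ := ⌊c * ((i * τ : ℕ) : ℝ)⌋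

omit [IsProbabilityMeasure μ] in
theorem bp_zero (c : ℝ) (τ : ℕ) : bp c τ 0 = 0 := by
  unfold bp
  simp

omit [IsProbabilityMeasure μ] in
theorem bp_err (c : ℝ) (τ i : ℕ) : (bp c τ i : ℝ) ≤ c * ((i * τ : ℕ) : ℝ) ∧ c * ((i * τ : ℕ) : ℝ) < bp c τ i + 1 :=
  ⟨Int.floor_le _, Int.lt_floor_add_one _⟩

omit [IsProbabilityMeasure μ] in
theorem bp_step (c : ℝ) (τ i : ℕ) : |((bp c τ (i + 1) - bp c τ i : ℤ) : ℝ) - c * τ| ≤ 1 := by
  have h1 := bp_err c τ i
  have h2 := bp_err c τ (i + 1)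
  push_cast at h1 h2 ⊢
  rw [abs_le]
  constructor <;> nlinarith

omit [IsProbabilityMeasure μ] in
theorem bp_mono {c : ℝ} (h0 : 0 ≤ c) (τ i : ℕ) : bp c τ i ≤ bp c τ (i + 1) := by
  unfold bp
  refine Int.floor_le_floor ?_
  refine mul_le_mul_of_nonneg_left ?_ h0
  exact_mod_cast Nat.mul_le_mul_right τ (Nat.le_succ i)

omit [IsProbabilityMeasure μ] in
theorem bp_le {c : ℝ} (h1 : c ≤ 1) (τ i : ℕ) : bp c τ (i + 1) - bp c τ i ≤ τ := by
  have h : bp c τ (i + 1) ≤ bp c τ i + τ := by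
    unfold bp
    rw [← Int.floor_add_natCast]
    refine Int.floor_le_floor ?_
    have : (0 : ℝ) ≤ τ := Nat.cast_nonneg τ
    push_cast
    nlinarith
  linarith

/-- The start of the block `i`. -/
noncomputable def bs (a : Pt) (c : ℝ) (τ i : ℕ) : Pt := (a.1 + ((i * τ : ℕ) : ℤ), a.2 + bp c τ i)

/-- The tube of the block `i` is in the tube of the lane. -/
theorem block_sub (a : Pt) (c D : ℝ) (τ i : ℕ) (hτ : 1 ≤ τ) :
    ∀ p ∈ Tube (bs a c τ i) (((bp c τ (i + 1) - bp c τ i : ℤ) : ℝ) / τ) D, (bs a c τ i).1 < p.1 →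
      p.1 ≤ (bs a c τ i).1 + τ → p ∈ Tube a c (D + 2) := by
  intro p hp h1 h2
  unfold Tube bs at *
  simp only [Set.mem_ofPred_eq] at hp ⊢
  have hτ0 : (0 : ℝ) < τ := by exact_mod_cast hτ
  set z : ℝ := ((bp c τ (i + 1) - bp c τ i : ℤ) : ℝ) with hz
  have hst := bp_step c τ i
  rw [← hz] at hst
  have her := bp_err c τ i
  simp only at h1 h2
  set u : ℝ := ((p.1 - (a.1 + ((i * τ : ℕ) : ℤ)) : ℤ) : ℝ) with hu
  have hu0 : 0 ≤ u := by
    rw [hu]
    exact_mod_cast (by linarith : (0 : ℤ) ≤ p.1 - (a.1 + ((i * τ : ℕ) : ℤ)))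
  have hu1 : u ≤ τ := by
    rw [hu]
    exact_mod_cast (by linarith : p.1 - (a.1 + ((i * τ : ℕ) : ℤ)) ≤ (τ : ℤ))
  have e1 : |(z / τ - c) * u| ≤ 1 := by
    rw [abs_mul, abs_of_nonneg hu0]
    have e2 : |z / τ - c| * τ ≤ 1 := by
      rw [← abs_of_pos hτ0, ← abs_mul, abs_of_pos hτ0]
      calc |(z / τ - c) * τ| = |z - c * τ| := by
            congr 1
            field_simp
        _ ≤ 1 := hst
    calc |z / τ - c| * u ≤ |z / τ - c| * τ := mul_le_mul_of_nonneg_left hu1 (abs_nonneg _)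
      _ ≤ 1 := e2
  have e3 : ((p.2 - a.2 : ℤ) : ℝ) - c * ((p.1 - a.1 : ℤ) : ℝ) =
      (((p.2 - (a.2 + bp c τ i) : ℤ) : ℝ) - z / τ * u) + (z / τ - c) * u +
        ((bp c τ i : ℝ) - c * ((i * τ : ℕ) : ℝ)) := by
    rw [hu]
    push_cast
    ring
  rw [e3]
  have e4 : |(bp c τ i : ℝ) - c * ((i * τ : ℕ) : ℝ)| ≤ 1 := by
    rw [abs_le]
    constructor <;> linarith [her.1, her.2]
  calc _ ≤ |(((p.2 - (a.2 + bp c τ i) : ℤ) : ℝ) - z / τ * u) + (z / τ - c) * u| +
        |(bp c τ i : ℝ) - c * ((i * τ : ℕ) : ℝ)| := abs_add_le _ _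
    _ ≤ (|((p.2 - (a.2 + bp c τ i) : ℤ) : ℝ) - z / τ * u| + |(z / τ - c) * u|) + 1 :=
        add_le_add (abs_add_le _ _) e4
    _ ≤ (D + 1) + 1 := by linarith
    _ = D + 2 := by ring

omit [IsProbabilityMeasure μ] in
/-- The cost of a lane is at most the sum of the costs of its blocks. -/
theorem lane_cost (a : Pt) {c D : ℝ} {τ : ℕ} (hτ : 1 ≤ τ) (hc0 : 0 ≤ c) (hc1 : c ≤ 1) (η : Env) (q : ℕ)
    (hb : ∀ i < q, 0 < WR μ 0 (Tube (bs a c τ i) (((bp c τ (i + 1) - bp c τ i : ℤ) : ℝ) / τ) D) η (bs a c τ i) τ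
      (bp c τ (i + 1) - bp c τ i)) :
    0 < WR μ 0 (Tube a c (D + 2)) η a (q * τ) (bp c τ q) ∧
    max (-Real.log (WR μ 0 (Tube a c (D + 2)) η a (q * τ) (bp c τ q))) 0 ≤
      ∑ i ∈ Finset.range q, max (-Real.log (WR μ 0 (Tube (bs a c τ i) (((bp c τ (i + 1) - bp c τ i : ℤ) : ℝ) / τ) D) η
        (bs a c τ i) τ (bp c τ (i + 1) - bp c τ i))) 0 := by
  induction q with
  | zero =>
    have h0 : WR μ 0 (Tube a c (D + 2)) η a (0 * τ) (bp c τ 0) = 1 := by
      rw [bp_zero, Nat.zero_mul]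
      unfold WR
      simp [Zr]
    rw [h0]
    simp
  | succ q ih =>
    obtain ⟨ih0, ih1⟩ := ih fun i hi => hb i (by omega)
    set B : ℝ := WR μ 0 (Tube (bs a c τ q) (((bp c τ (q + 1) - bp c τ q : ℤ) : ℝ) / τ) D) η (bs a c τ q) τ
      (bp c τ (q + 1) - bp c τ q) with hB
    have hB0 : 0 < B := hb q (by omega)
    have hbq0 : 0 ≤ bp c τ q := by
      unfold bp
      exact Int.floor_nonneg.2 (by positivity)
    have hbq1 : bp c τ q ≤ ((q * τ : ℕ) : ℤ) := by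
      have h1 := (bp_err c τ q).1
      have h2 : c * ((q * τ : ℕ) : ℝ) ≤ ((q * τ : ℕ) : ℝ) := mul_le_of_le_one_left (Nat.cast_nonneg _) hc1
      exact_mod_cast h1.trans h2
    have h1 := WR_mul_le (μ := μ) (s := 0) (Tube a c (D + 2)) η a (q * τ) τ (bp c τ (q + 1) - bp c τ q) hbq0 hbq1
    have e1 : bp c τ q + (bp c τ (q + 1) - bp c τ q) = bp c τ (q + 1) := by ring
    have e2 : q * τ + τ = (q + 1) * τ := by ring
    rw [e1, e2] at h1
    have h2 : B ≤ WR μ 0 (Tube a c (D + 2)) η (a.1 + ((q * τ : ℕ) : ℤ), a.2 + bp c τ q) τ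
        (bp c τ (q + 1) - bp c τ q) := by
      rw [hB]
      exact WR_mono_on η (bs a c τ q) τ _ (block_sub a c D τ q hτ)
    have h3 : WR μ 0 (Tube a c (D + 2)) η a (q * τ) (bp c τ q) * B ≤
        WR μ 0 (Tube a c (D + 2)) η a ((q + 1) * τ) (bp c τ (q + 1)) :=
      (mul_le_mul_of_nonneg_left h2 ih0.le).trans h1
    have h4 := mul_pos ih0 hB0
    refine ⟨h4.trans_le h3, ?_⟩
    rw [Finset.sum_range_succ, ← hB]
    have h5 := Real.log_le_log h4 h3
    rw [Real.log_mul ih0.ne' hB0.ne'] at h5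
    have h6 := le_max_left (-Real.log (WR μ 0 (Tube a c (D + 2)) η a (q * τ) (bp c τ q))) 0
    have h7 := le_max_left (-Real.log B) 0
    have h8 := le_max_right (-Real.log (WR μ 0 (Tube a c (D + 2)) η a (q * τ) (bp c τ q))) 0
    have h9 := le_max_right (-Real.log B) 0
    refine max_le (by linarith) (by linarith)

/-- Translation of the mean of the positive part. -/
theorem pR_sh (a b : Pt) (v D : ℝ) (n : ℕ) (y : ℤ) : pR μ (Tube a v D) a n y = pR μ (Tube b v D) b n y := by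
  have key : ∀ c : Pt, pR μ (Tube c v D) c n y = pR μ (Tube 0 v D) 0 n y := by
    intro c
    unfold pR
    have h1 : ∀ η : Env, WR μ 0 (Tube c v D) η c n y = WR μ 0 (Tube 0 v D) (sh c η) 0 n y := by
      intro η
      have h2 := WR_sh (μ := μ) (s := 0) (Tube c v D) η 0 c n y
      rw [zero_add] at h2
      rw [← h2]
      have h3 : {p : Pt | p + c ∈ Tube c v D} = Tube 0 v D := by
        ext p
        unfold Tube
        simp
      rw [h3]
    simp only [h1]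
    have hm : Measurable fun η : Env => max (-Real.log (WR μ 0 (Tube 0 v D) η 0 n y)) 0 :=
      (Real.measurable_log.comp (measurable_WR _ _ _ _)).neg.max measurable_const
    conv_rhs => rw [← (mp_sh (μ := μ) c).map_eq]
    rw [integral_map (mp_sh (μ := μ) c).measurable.aemeasurable hm.aestronglyMeasurable]
  rw [key a, key b]

/-- The mean of the positive part of the cost of a lane. -/
theorem lane_mean (hμ : Pool.Agent.W_7d29a1_h47.EM μ) (a : Pt) {c D K : ℝ} {τ : ℕ} (hτ : 1 ≤ τ) (hc0 : 0 ≤ c) (hc1 : c ≤ 1)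
    (h : ∀ z : ℤ, 0 ≤ z → z ≤ τ → |(z : ℝ) - c * τ| ≤ 1 → HasPath (Tube 0 ((z : ℝ) / τ) D) 0 τ z ∧
      pR μ (Tube 0 ((z : ℝ) / τ) D) 0 τ z ≤ K) (q : ℕ) :
    (∀ η, 0 < WR μ 0 (Tube a c (D + 2)) η a (q * τ) (bp c τ q)) ∧ pR μ (Tube a c (D + 2)) a (q * τ) (bp c τ q) ≤ q * K := by
  have hz : ∀ i : ℕ, 0 ≤ bp c τ (i + 1) - bp c τ i ∧ bp c τ (i + 1) - bp c τ i ≤ τ :=
    fun i => ⟨by linarith [bp_mono hc0 τ i], bp_le hc1 τ i⟩
  have hpath0 : ∀ i : ℕ, HasPath (Tube (bs a c τ i) (((bp c τ (i + 1) - bp c τ i : ℤ) : ℝ) / τ) D) (bs a c τ i) τ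
      (bp c τ (i + 1) - bp c τ i) := by
    intro i
    obtain ⟨p, h1, h2, h3, h4⟩ := (h _ (hz i).1 (hz i).2 (bp_step c τ i)).1
    refine ⟨p, h1, h2, h3, fun k hk hk' => ?_⟩
    have h5 := h4 k hk hk'
    unfold Tube at h5 ⊢
    simp only [Set.mem_ofPred_eq] at h5 ⊢
    simpa using h5
  have hpos := fun (i : ℕ) (η : Env) => (hpath0 i).wr_pos (μ := μ) (s := 0) η
  refine ⟨fun η => (lane_cost a hτ hc0 hc1 η q fun i _ => hpos i η).1, ?_⟩
  have hint : ∀ i ∈ Finset.range q, Integrable (fun η => max (-Real.log (WR μ 0 (Tube (bs a c τ i)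
      (((bp c τ (i + 1) - bp c τ i : ℤ) : ℝ) / τ) D) η (bs a c τ i) τ (bp c τ (i + 1) - bp c τ i))) 0) (law μ) :=
    fun i _ => ((hpath0 i).sub.neg.max (Sub.const 0)).integrable hμ
  have hm : ∀ i ∈ Finset.range q, pR μ (Tube (bs a c τ i) (((bp c τ (i + 1) - bp c τ i : ℤ) : ℝ) / τ) D)
      (bs a c τ i) τ (bp c τ (i + 1) - bp c τ i) ≤ K := by
    intro i _
    rw [pR_sh (bs a c τ i) 0]
    exact (h _ (hz i).1 (hz i).2 (bp_step c τ i)).2
  calc pR μ (Tube a c (D + 2)) a (q * τ) (bp c τ q)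
      ≤ ∫ η, ∑ i ∈ Finset.range q, max (-Real.log (WR μ 0 (Tube (bs a c τ i) (((bp c τ (i + 1) - bp c τ i : ℤ) : ℝ) / τ) D) η
        (bs a c τ i) τ (bp c τ (i + 1) - bp c τ i))) 0 ∂(law μ) := by
        refine integral_mono_of_nonneg (Eventually.of_forall fun η => le_max_right _ _) (integrable_finsetSum _ hint)
          (Eventually.of_forall fun η => (lane_cost a hτ hc0 hc1 η q fun i _ => hpos i η).2)
    _ = ∑ i ∈ Finset.range q, pR μ (Tube (bs a c τ i) (((bp c τ (i + 1) - bp c τ i : ℤ) : ℝ) / τ) D)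
        (bs a c τ i) τ (bp c τ (i + 1) - bp c τ i) := integral_finsetSum _ hint
    _ ≤ ∑ i ∈ Finset.range q, K := Finset.sum_le_sum hm
    _ = q * K := by simp

/-- Disjoint lanes: all of them are expensive with exponentially small probability. -/
theorem lanes (hμ : Pool.Agent.W_7d29a1_h47.EM μ) {c D K t : ℝ} {τ q N : ℕ} {Z : ℤ} (a : ℕ → Pt) (k : ℕ) (hτ : 1 ≤ τ)
    (hc0 : 0 ≤ c) (hc1 : c ≤ 1)
    (h : ∀ z : ℤ, 0 ≤ z → z ≤ τ → |(z : ℝ) - c * τ| ≤ 1 → HasPath (Tube 0 ((z : ℝ) / τ) D) 0 τ z ∧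
      pR μ (Tube 0 ((z : ℝ) / τ) D) 0 τ z ≤ K) (hN : N = q * τ) (hZ : Z = bp c τ q) (ht : 0 < t)
    (htK : 2 * (q * K) ≤ t) (hrow : ∀ i, (a i).1 = (a 0).1)
    (hsep : ∀ i j, i < j → 2 * (D + 2) < (((a j).2 - (a i).2 : ℤ) : ℝ)) :
    (law μ).real {η | ∀ i ∈ Finset.range k, t ≤ -Real.log (WR μ 0 (Tube (a i) c (D + 2)) η (a i) N Z)} ≤ (1 / 2) ^ k := by
  subst hN hZ
  have hms : ∀ i, MeasurableSet {η : Env | t ≤ -Real.log (WR μ 0 (Tube (a i) c (D + 2)) η (a i) (q * τ) (bp c τ q))} :=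
    fun i => measurableSet_le measurable_const (Real.measurable_log.comp (measurable_WR _ _ _ _)).neg
  have h1 : ∀ i, (law μ).real {η : Env | t ≤ -Real.log (WR μ 0 (Tube (a i) c (D + 2)) η (a i) (q * τ) (bp c τ q))} ≤
      1 / 2 := by
    intro i
    obtain ⟨hp, hm⟩ := lane_mean hμ (a i) hτ hc0 hc1 h q
    have h2 := mul_meas_ge_le_integral_of_nonneg (μ := law μ)
      (f := fun η => max (-Real.log (WR μ 0 (Tube (a i) c (D + 2)) η (a i) (q * τ) (bp c τ q))) 0)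
      (Eventually.of_forall fun η => le_max_right _ _)
      (by
        have hz : ∀ j : ℕ, 0 ≤ bp c τ (j + 1) - bp c τ j ∧ bp c τ (j + 1) - bp c τ j ≤ τ :=
          fun j => ⟨by linarith [bp_mono hc0 τ j], bp_le hc1 τ j⟩
        have hmeas : Measurable fun η : Env =>
            max (-Real.log (WR μ 0 (Tube (a i) c (D + 2)) η (a i) (q * τ) (bp c τ q))) 0 :=
          (Real.measurable_log.comp (measurable_WR _ _ _ _)).neg.max measurable_const
        have hpath0 : ∀ j : ℕ, HasPath (Tube (bs (a i) c τ j) (((bp c τ (j + 1) - bp c τ j : ℤ) : ℝ) / τ) D)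
            (bs (a i) c τ j) τ (bp c τ (j + 1) - bp c τ j) := by
          intro j
          obtain ⟨p, g1, g2, g3, g4⟩ := (h _ (hz j).1 (hz j).2 (bp_step c τ j)).1
          refine ⟨p, g1, g2, g3, fun k hk hk' => ?_⟩
          have g5 := g4 k hk hk'
          unfold Tube at g5 ⊢
          simp only [Set.mem_ofPred_eq] at g5 ⊢
          simpa using g5
        refine Integrable.mono' (integrable_finsetSum (Finset.range q) fun j _ =>
          ((hpath0 j).sub (μ := μ) (s := 0).neg.max (Sub.const 0)).integrable hμ) hmeas.aestronglyMeasurable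
          (Eventually.of_forall fun η => ?_)
        rw [Real.norm_eq_abs, abs_of_nonneg (le_max_right _ _)]
        exact (lane_cost (a i) hτ hc0 hc1 η q fun j _ => (hpath0 j).wr_pos η).2) t
    have h3 : (law μ).real {η : Env | t ≤ -Real.log (WR μ 0 (Tube (a i) c (D + 2)) η (a i) (q * τ) (bp c τ q))} ≤
        (law μ).real {η : Env | t ≤ max (-Real.log (WR μ 0 (Tube (a i) c (D + 2)) η (a i) (q * τ) (bp c τ q))) 0} :=
      measureReal_mono (fun η hη => by
        have hη' : t ≤ -Real.log (WR μ 0 (Tube (a i) c (D + 2)) η (a i) (q * τ) (bp c τ q)) := hη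
        exact le_trans hη' (le_max_left _ _)) (measure_ne_top _ _)
    have h4 : t * (law μ).real {η : Env | t ≤ max (-Real.log (WR μ 0 (Tube (a i) c (D + 2)) η (a i) (q * τ)
        (bp c τ q))) 0} ≤ t * (1 / 2) := by
      have : pR μ (Tube (a i) c (D + 2)) (a i) (q * τ) (bp c τ q) ≤ q * K := hm
      unfold pR at this
      linarith
    exact h3.trans (le_of_mul_le_mul_left h4 ht)
  have h2 := indep_events (μ := μ) (Finset.range k)
    (fun i => {η : Env | t ≤ -Real.log (WR μ 0 (Tube (a i) c (D + 2)) η (a i) (q * τ) (bp c τ q))})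
    (fun i => cone (a i) (q * τ) (bp c τ q) ∩ Tube (a i) c (D + 2)) (fun i _ => hms i)
    (fun i _ η η' hh => by
      have : WR μ 0 (Tube (a i) c (D + 2)) η (a i) (q * τ) (bp c τ q) =
          WR μ 0 (Tube (a i) c (D + 2)) η' (a i) (q * τ) (bp c τ q) := WR_dep _ _ _ _ hh
      simp only [Set.mem_ofPred_eq, this])
    (fun i _ j _ hij => by
      rw [Set.disjoint_left]
      rintro p ⟨-, hp⟩ ⟨-, hp'⟩
      unfold Tube at hp hp'
      simp only [Set.mem_ofPred_eq] at hp hp'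
      rw [abs_le] at hp hp'
      have hr : (a i).1 = (a j).1 := (hrow i).trans (hrow j).symm
      rw [hr] at hp
      rcases lt_or_gt_of_ne hij with hlt | hlt
      · have := hsep i j hlt
        push_cast at hp hp' this
        linarith [hp.1, hp.2, hp'.1, hp'.2]
      · have := hsep j i hlt
        push_cast at hp hp' this
        linarith [hp.1, hp.2, hp'.1, hp'.2])
  have h3 : (law μ).real {η : Env | ∀ i ∈ Finset.range k, t ≤ -Real.log (WR μ 0 (Tube (a i) c (D + 2)) η (a i) (q * τ)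
      (bp c τ q))} = ∏ i ∈ Finset.range k, (law μ).real {η : Env | t ≤ -Real.log (WR μ 0 (Tube (a i) c (D + 2)) η (a i)
      (q * τ) (bp c τ q))} := h2
  rw [h3]
  calc _ ≤ ∏ i ∈ Finset.range k, (1 / 2 : ℝ) := Finset.prod_le_prod (fun i _ => measureReal_nonneg) fun i _ => h1 i
    _ = (1 / 2) ^ k := by simp

end Pool.Agent.W_7d29a1_h10
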