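import Pool.Agent.W_7d29a1_G.FR0

/-!
MP_7d29a1_pr, second theorem (SR), unlucky tail: growth of the unit `EE` and of the width `vA μ 1 n * n` from the doubling.
-/

set_option autoImplicit false

namespace Pool.Agent.W_7d29a1_h10

open MeasureTheory ProbabilityTheory Filter Topology Pool.Agent.W_7d29a1_F Pool.Agent.W_7d29a1_h4g
open Pool.Agent.W_7d29a1_G

variable {μ : Measure ℝ} [IsProbabilityMeasure μ]

/-- The width of the scale `n`. -/
noncomputable def wd (μ : Measure ℝ) (n : ℕ) : ℝ := vA μ 1 n * n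

/-- The unit doubles in `T` octaves. -/
def Dbl (μ : Measure ℝ) : Prop := ∃ T n₀ : ℕ, ∀ n, n₀ ≤ n → 2 * EE μ n ≤ EE μ (2 ^ T * n)

theorem EE_le_mul (hμ : Pool.Agent.W_7d29a1_h47.EM μ) {n' n : ℕ} (h1 : 1 ≤ n') (h : n' ≤ n) :
    EE μ n * n' ≤ 2 * n * EE μ n' := by
  have h2 : n ≤ (n / n' + 1) * n' := by
    have := Nat.lt_div_mul_add (a := n) (b := n') (by omega)
    nlinarith
  have h3 := (EE_mono (μ := μ) h2).trans (EE_mul hμ (n / n' + 1) n' (Nat.le_add_left 1 _))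
  have h4 : ((n / n' + 1 : ℕ) : ℝ) * n' ≤ 2 * n := by
    have h5 : (n / n' + 1) * n' ≤ 2 * n := by
      have := Nat.div_mul_le_self n n'
      nlinarith
    exact_mod_cast h5
  have h6 := one_le_EE (μ := μ) n'
  have hn' : (0 : ℝ) ≤ n' := Nat.cast_nonneg _
  calc EE μ n * n' ≤ ((n / n' + 1 : ℕ) : ℝ) * EE μ n' * n' := mul_le_mul_of_nonneg_right h3 hn'
    _ = ((n / n' + 1 : ℕ) : ℝ) * n' * EE μ n' := by ring
    _ ≤ 2 * n * EE μ n' := mul_le_mul_of_nonneg_right h4 (by linarith)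

/-- The cone of a later scale is at most twice as wide. -/
theorem vA_le_two' (hμ : Pool.Agent.W_7d29a1_h47.EM μ) {n' n : ℕ} (h1 : 1 ≤ n') (h : n' ≤ n) :
    vA μ 1 n ≤ 2 * vA μ 1 n' := by
  have hn' : (0 : ℝ) < n' := by exact_mod_cast h1
  have hn : (0 : ℝ) < n := by exact_mod_cast (by omega : 0 < n)
  have h2 := vA_mem hμ (A := 1) zero_le_one n
  have h3 := EE_le_mul hμ h1 h
  have h4 : vA μ 1 n ≤ vA μ 2 n' := by
    refine le_vA (vA_nonneg hμ zero_le_one n) (vA_le hμ zero_le_one n) ?_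
    rw [one_mul] at h2
    have h5 : (n' : ℝ) * J μ (vA μ 1 n) * n ≤ 2 * EE μ n' * n := by
      have := mul_le_mul_of_nonneg_right h2 hn'.le
      nlinarith
    exact le_of_mul_le_mul_right h5 hn
  have h5 := vA_scale hμ (A := 1) (B := 2) one_pos (by norm_num) n'
  rw [div_one] at h5
  exact h4.trans h5

/-- The width grows at least like the unit. -/
theorem wd_cmp (hμ : Pool.Agent.W_7d29a1_h47.EM μ) (hnd : Pool.Agent.W_7d29a1_h47.Nondeg μ) :
    ∃ n₀ : ℕ, ∀ n' n : ℕ, 1 ≤ n' → n' ≤ n → n₀ ≤ n → wd μ n' * EE μ n ≤ 2 * wd μ n * EE μ n' := by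
  obtain ⟨n₀, hn₀⟩ := (vA_lt_half hμ hnd (A := 1) zero_le_one).exists_forall_of_atTop
  refine ⟨n₀, fun n' n h1 h h0 => ?_⟩
  have hn' : (0 : ℝ) < n' := by exact_mod_cast h1
  have hn : (0 : ℝ) < n := by exact_mod_cast (by omega : 0 < n)
  have hE := one_le_EE (μ := μ) n
  have hE' := one_le_EE (μ := μ) n'
  have hv := vA_pos hμ (A := 1) one_pos n
  have hv' := vA_pos hμ (A := 1) one_pos n'
  have heq := vA_eq' hμ (A := 1) zero_le_one (hn₀ n h0)
  rw [one_mul] at heq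
  unfold wd
  rcases le_total (vA μ 1 n) (vA μ 1 n') with hle | hle
  · have h2 := J_mul hμ hv.le (t := vA μ 1 n' / vA μ 1 n) (by rwa [one_le_div hv])
      (by rw [div_mul_cancel₀ _ hv.ne']; exact vA_le hμ zero_le_one n')
    rw [div_mul_cancel₀ _ hv.ne'] at h2
    have h3 := vA_mem hμ (A := 1) zero_le_one n'
    rw [one_mul] at h3
    have h4 : vA μ 1 n' * J μ (vA μ 1 n) ≤ vA μ 1 n * J μ (vA μ 1 n') := by
      have := mul_le_mul_of_nonneg_left h2 hv.le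
      calc vA μ 1 n' * J μ (vA μ 1 n) = vA μ 1 n * (vA μ 1 n' / vA μ 1 n * J μ (vA μ 1 n)) := by
            field_simp
        _ ≤ _ := this
    calc vA μ 1 n' * n' * EE μ n = vA μ 1 n' * n' * (n * J μ (vA μ 1 n)) := by rw [heq]
      _ = (n' * n) * (vA μ 1 n' * J μ (vA μ 1 n)) := by ring
      _ ≤ (n' * n) * (vA μ 1 n * J μ (vA μ 1 n')) := mul_le_mul_of_nonneg_left h4 (by positivity)
      _ = vA μ 1 n * n * (n' * J μ (vA μ 1 n')) := by ring
      _ ≤ vA μ 1 n * n * EE μ n' := mul_le_mul_of_nonneg_left h3 (by positivity)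
      _ ≤ 2 * (vA μ 1 n * n) * EE μ n' := by
          have : 0 ≤ vA μ 1 n * n * EE μ n' := by positivity
          linarith
  · have h3 := EE_le_mul hμ h1 h
    calc vA μ 1 n' * n' * EE μ n ≤ vA μ 1 n * n' * EE μ n := by gcongr
      _ = vA μ 1 n * (EE μ n * n') := by ring
      _ ≤ vA μ 1 n * (2 * n * EE μ n') := mul_le_mul_of_nonneg_left h3 hv.le
      _ = 2 * (vA μ 1 n * n) * EE μ n' := by ring

/-- The unit grows like a power. -/
theorem EE_grow (hD : Dbl μ) : ∃ T n₀ : ℕ, 1 ≤ T ∧ ∀ n' n : ℕ, n₀ ≤ n' → 1 ≤ n' → n' ≤ n →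
    ((n : ℝ) / n') ^ (1 / (T : ℝ)) * EE μ n' ≤ 2 * EE μ n := by
  obtain ⟨T, n₀, h⟩ := hD
  have hT : 1 ≤ T := by
    by_contra hcon
    have hT0 : T = 0 := by omega
    have h1 := h n₀ le_rfl
    rw [hT0, pow_zero, one_mul] at h1
    have := one_le_EE (μ := μ) n₀
    linarith
  refine ⟨T, n₀, hT, fun n' n h0 h1 hn => ?_⟩
  have hTr : (0 : ℝ) < T := by exact_mod_cast hT
  have hiter : ∀ j : ℕ, 2 ^ j * EE μ n' ≤ EE μ ((2 ^ T) ^ j * n') := by
    intro j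
    induction j with
    | zero => simp
    | succ j ih =>
      have h2 : n₀ ≤ (2 ^ T) ^ j * n' := h0.trans (Nat.le_mul_of_pos_left _ (by positivity))
      have h3 := h _ h2
      have e1 : 2 ^ T * ((2 ^ T) ^ j * n') = (2 ^ T) ^ (j + 1) * n' := by ring
      rw [e1] at h3
      calc (2 : ℝ) ^ (j + 1) * EE μ n' = 2 * (2 ^ j * EE μ n') := by ring
        _ ≤ 2 * EE μ ((2 ^ T) ^ j * n') := by linarith
        _ ≤ _ := h3
  have hL : 1 < 2 ^ T := Nat.one_lt_two_pow (by omega)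
  set j := Nat.log (2 ^ T) (n / n') with hj
  have hd : n / n' ≠ 0 := by
    have : 1 ≤ n / n' := (Nat.le_div_iff_mul_le (by omega)).2 (by omega)
    omega
  have h2 : (2 ^ T) ^ j ≤ n / n' := Nat.pow_log_le_self _ hd
  have h3 : n / n' < (2 ^ T) ^ (j + 1) := Nat.lt_pow_succ_log_self hL _
  have h4 : (2 ^ T) ^ j * n' ≤ n := (Nat.le_div_iff_mul_le (by omega)).1 h2
  have h5 : n < (2 ^ T) ^ (j + 1) * n' := (Nat.div_lt_iff_lt_mul (by omega)).1 h3
  have h6 := (hiter j).trans (EE_mono (μ := μ) h4)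
  have hn'0 : (0 : ℝ) < n' := by exact_mod_cast h1
  have h7 : ((n : ℝ) / n') ^ (1 / (T : ℝ)) ≤ 2 ^ (j + 1) := by
    have e2 : (n : ℝ) / n' ≤ (((2 : ℝ) ^ T) ^ (j + 1)) := by
      rw [div_le_iff₀ hn'0]
      exact_mod_cast h5.le
    calc ((n : ℝ) / n') ^ (1 / (T : ℝ)) ≤ (((2 : ℝ) ^ T) ^ (j + 1)) ^ (1 / (T : ℝ)) :=
          Real.rpow_le_rpow (by positivity) e2 (by positivity)
      _ = 2 ^ (j + 1) := by
          rw [← pow_mul, mul_comm T (j + 1), pow_mul, ← Real.rpow_natCast ((2 : ℝ) ^ (j + 1)) T, ← Real.rpow_mul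
            (by positivity), mul_one_div_cancel hTr.ne', Real.rpow_one]
  have hE' := one_le_EE (μ := μ) n'
  calc ((n : ℝ) / n') ^ (1 / (T : ℝ)) * EE μ n' ≤ 2 ^ (j + 1) * EE μ n' :=
        mul_le_mul_of_nonneg_right h7 (by linarith)
    _ = 2 * (2 ^ j * EE μ n') := by ring
    _ ≤ 2 * EE μ n := by linarith

/-- The width tends to infinity. -/
theorem wd_large (hμ : Pool.Agent.W_7d29a1_h47.EM μ) (hnd : Pool.Agent.W_7d29a1_h47.Nondeg μ) (hD : Dbl μ) (W₀ : ℝ) :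
    ∃ n₀ : ℕ, ∀ n, n₀ ≤ n → W₀ ≤ wd μ n := by
  obtain ⟨n₁, h1⟩ := wd_cmp hμ hnd
  obtain ⟨T, n₂, hT, h2⟩ := EE_grow hD
  have hTr : (0 : ℝ) < T := by exact_mod_cast hT
  set N := max n₂ 1 with hN
  have hN1 : 1 ≤ N := le_max_right _ _
  have hNr : (0 : ℝ) < N := by exact_mod_cast hN1
  have hw : 0 < wd μ N := by
    unfold wd
    exact mul_pos (vA_pos hμ one_pos N) hNr
  -- `(n / N) ^ (1 / T) → ∞`
  have ht : Tendsto (fun n : ℕ => ((n : ℝ) / N) ^ (1 / (T : ℝ))) atTop atTop :=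
    (tendsto_rpow_atTop (by positivity)).comp (tendsto_natCast_atTop_atTop.atTop_div_const hNr)
  obtain ⟨n₃, h3⟩ := (ht.eventually_ge_atTop (4 * W₀ / wd μ N)).exists_forall_of_atTop
  refine ⟨max (max n₁ N) n₃, fun n hn => ?_⟩
  have hn1 : n₁ ≤ n := ((le_max_left _ _).trans (le_max_left _ _)).trans hn
  have hnN : N ≤ n := ((le_max_right _ _).trans (le_max_left _ _)).trans hn
  have h4 := h1 N n hN1 hnN hn1
  have h5 := h2 N n (le_max_left _ _) hN1 hnN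
  have h6 := h3 n ((le_max_right _ _).trans hn)
  have hE := one_le_EE (μ := μ) N
  rw [div_le_iff₀ hw] at h6
  have h7 : wd μ N * (((n : ℝ) / N) ^ (1 / (T : ℝ)) * EE μ N) ≤ 4 * wd μ n * EE μ N := by
    calc _ ≤ wd μ N * (2 * EE μ n) := mul_le_mul_of_nonneg_left h5 hw.le
      _ = 2 * (wd μ N * EE μ n) := by ring
      _ ≤ 2 * (2 * wd μ n * EE μ N) := by linarith
      _ = _ := by ring
  have h8 : wd μ N * ((n : ℝ) / N) ^ (1 / (T : ℝ)) ≤ 4 * wd μ n := by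
    have : (wd μ N * ((n : ℝ) / N) ^ (1 / (T : ℝ))) * EE μ N ≤ (4 * wd μ n) * EE μ N := by linarith
    exact le_of_mul_le_mul_right this (by linarith)
  linarith

end Pool.Agent.W_7d29a1_h10
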