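import Pool.Agent.W_7d29a1_h10.UnlB

/-!
MP_7d29a1_pr, second theorem (SR), unlucky tail: one step of the recursion for given durations (structure `Par`).
-/

set_option autoImplicit false

namespace Pool.Agent.W_7d29a1_h10

open MeasureTheory ProbabilityTheory Filter Topology Pool.Agent.W_7d29a1_F Pool.Agent.W_7d29a1_h4g
open Pool.Agent.W_7d29a1_g Pool.Agent.W_7d29a1_G

variable {μ : Measure ℝ} [IsProbabilityMeasure μ]

/-- The polymer in the tube around a cheap displacement costs a bounded number of units. -/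
def TubeInK (μ : Measure ℝ) (κ₀ : ℝ) : Prop := ∃ (R₀ C : ℝ) (n₀ : ℕ), 0 ≤ R₀ ∧ ∀ n : ℕ, n₀ ≤ n → ∀ z : ℤ, 0 ≤ z → z ≤ n →
  |(z : ℝ) - n / 2| ≤ κ₀ * wd μ n →
    HasPath (Tube 0 ((z : ℝ) / n) (R₀ * wd μ n)) 0 n z ∧ pR μ (Tube 0 ((z : ℝ) / n) (R₀ * wd μ n)) 0 n z ≤ C * EE μ n

omit [IsProbabilityMeasure μ] in
theorem md_half (m : ℕ) : |((md m : ℤ) : ℝ) - (m : ℝ) / 2| ≤ 1 / 2 := by
  have h1 : 2 * md m ≤ m := by unfold md; omega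
  have h2 : (m : ℤ) ≤ 2 * md m + 1 := by unfold md; omega
  have h1' : 2 * ((md m : ℤ) : ℝ) ≤ m := by exact_mod_cast h1
  have h2' : (m : ℝ) ≤ 2 * ((md m : ℤ) : ℝ) + 1 := by exact_mod_cast h2
  rw [abs_le]
  constructor <;> linarith

omit [IsProbabilityMeasure μ] in
theorem md_le_half (m : ℕ) : ((md m : ℤ) : ℝ) ≤ (m : ℝ) / 2 := by
  have h1 : 2 * md m ≤ m := by unfold md; omega
  have h1' : 2 * ((md m : ℤ) : ℝ) ≤ m := by exact_mod_cast h1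
  linarith

theorem wd_nonneg (hμ : Pool.Agent.W_7d29a1_h47.EM μ) (m : ℕ) : 0 ≤ wd μ m := by
  unfold wd
  exact mul_nonneg (vA_nonneg hμ zero_le_one m) (Nat.cast_nonneg m)

theorem wd_half (hμ : Pool.Agent.W_7d29a1_h47.EM μ) (m : ℕ) : wd μ m ≤ (m : ℝ) / 2 := by
  unfold wd
  have h1 := vA_le hμ (A := 1) zero_le_one m
  have h2 : (0 : ℝ) ≤ m := Nat.cast_nonneg m
  nlinarith

/-- A connection (right offset). -/
theorem conn_right (hμ : Pool.Agent.W_7d29a1_h47.EM μ) {κ ξr t s : ℝ} {m : ℕ} {ξ : ℤ} (hm : 2 ≤ m) (hξ : (ξ : ℝ) = ξr)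
    (h0 : 0 ≤ ξr) (h1 : ξr ≤ κ * wd μ m) (hκ : κ ≤ 1 / 8) (hκ0 : 0 ≤ κ) (ht : 2 * s * EE μ m ≤ t) :
    (0 ≤ md m + ξ ∧ md m + ξ ≤ m) ∧ (law μ).real {η | t ≤ X μ 0 η 0 m (md m + ξ)} ≤ TT μ κ m (2 * s) := by
  have hw := wd_half hμ m
  have hw0 := wd_nonneg hμ m
  have hmd := md_half m
  have hmdl := md_le_half m
  have hmr : (0 : ℝ) ≤ m := Nat.cast_nonneg m
  have h3 : ξr ≤ m / 16 := by
    have : κ * wd μ m ≤ 1 / 8 * (m / 2) := mul_le_mul hκ hw hw0 (by norm_num)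
    linarith
  have e0 : 0 ≤ ξ := by
    have : (0 : ℝ) ≤ ξ := by rw [hξ]; exact h0
    exact_mod_cast this
  have e1 : 0 ≤ md m + ξ := add_nonneg (md_nonneg _) e0
  have e2 : md m + ξ ≤ m := by
    have : ((md m + ξ : ℤ) : ℝ) ≤ m := by
      rw [Int.cast_add, hξ]
      linarith
    exact_mod_cast this
  refine ⟨⟨e1, e2⟩, ?_⟩
  have e3 : |((md m + ξ : ℤ) : ℝ) - (m : ℝ) / 2| ≤ κ * wd μ m + 1 / 2 := by
    rw [Int.cast_add, hξ]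
    rw [abs_le] at hmd ⊢
    constructor <;> linarith [hmd.1, hmd.2]
  refine le_trans ?_ (le_TT (μ := μ) (s := 2 * s) e1 e2 e3)
  refine measureReal_mono (fun η hη => ?_) (measure_ne_top _ _)
  have hη' : t ≤ X μ 0 η 0 m (md m + ξ) := hη
  exact ht.trans hη'

/-- A connection (left offset). -/
theorem conn_left (hμ : Pool.Agent.W_7d29a1_h47.EM μ) {κ ξr t s : ℝ} {m : ℕ} {ξ : ℤ} (hm : 2 ≤ m) (hξ : (ξ : ℝ) = ξr)
    (h0 : 0 ≤ ξr) (h1 : ξr ≤ κ * wd μ m) (hκ : κ ≤ 1 / 8) (hκ0 : 0 ≤ κ) (ht : 2 * s * EE μ m ≤ t) :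
    (0 ≤ md m - ξ ∧ md m - ξ ≤ m) ∧ (law μ).real {η | t ≤ X μ 0 η 0 m (md m - ξ)} ≤ TT μ κ m (2 * s) := by
  have hw := wd_half hμ m
  have hw0 := wd_nonneg hμ m
  have hmd := md_half m
  have hmr : (2 : ℝ) ≤ m := by exact_mod_cast hm
  have h3 : ξr ≤ m / 16 := by
    have : κ * wd μ m ≤ 1 / 8 * (m / 2) := mul_le_mul hκ hw hw0 (by norm_num)
    linarith
  have e0 : 0 ≤ ξ := by
    have : (0 : ℝ) ≤ ξ := by rw [hξ]; exact h0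
    exact_mod_cast this
  have e1 : 0 ≤ md m - ξ := by
    have : (0 : ℝ) ≤ ((md m - ξ : ℤ) : ℝ) := by
      rw [Int.cast_sub, hξ]
      have := (abs_le.1 hmd).1
      linarith
    exact_mod_cast this
  have e2 : md m - ξ ≤ m := by
    have := md_le m
    linarith
  refine ⟨⟨e1, e2⟩, ?_⟩
  have e3 : |((md m - ξ : ℤ) : ℝ) - (m : ℝ) / 2| ≤ κ * wd μ m + 1 / 2 := by
    rw [Int.cast_sub, hξ]
    rw [abs_le] at hmd ⊢
    constructor <;> linarith [hmd.1, hmd.2]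
  refine le_trans ?_ (le_TT (μ := μ) (s := 2 * s) e1 e2 e3)
  refine measureReal_mono (fun η hη => ?_) (measure_ne_top _ _)
  have hη' : t ≤ X μ 0 η 0 m (md m - ξ) := hη
  exact ht.trans hη'

omit [IsProbabilityMeasure μ] in
/-- The slope of the lanes. -/
theorem slope_bounds {n N m₁ m₂ : ℕ} {y : ℤ} {κ w : ℝ} (hn : n = m₁ + (N + m₂)) (hN : n ≤ 2 * N) (hn24 : 24 ≤ n)
    (hy : |(y : ℝ) - (n : ℝ) / 2| ≤ κ * w + 1 / 2) (hw : κ * w ≤ n / 16) :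
    |((y - md m₁ - md m₂ : ℤ) : ℝ) / N - 1 / 2| * N ≤ κ * w + 3 / 2 ∧
      |((y - md m₁ - md m₂ : ℤ) : ℝ) / N - 1 / 2| ≤ 1 / 2 := by
  have hNr : (0 : ℝ) < N := by
    have : 0 < N := by omega
    exact_mod_cast this
  have hmd1 := md_half m₁
  have hmd2 := md_half m₂
  have e1 : ((y - md m₁ - md m₂ : ℤ) : ℝ) - (N : ℝ) / 2 = ((y : ℝ) - (n : ℝ) / 2) - (((md m₁ : ℤ) : ℝ) - (m₁ : ℝ) / 2) -
      (((md m₂ : ℤ) : ℝ) - (m₂ : ℝ) / 2) := by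
    have : (n : ℝ) = m₁ + (N + m₂) := by exact_mod_cast hn
    rw [this]
    push_cast
    ring
  have e2 : |((y - md m₁ - md m₂ : ℤ) : ℝ) - (N : ℝ) / 2| ≤ κ * w + 3 / 2 := by
    rw [e1]
    rw [abs_le] at hy hmd1 hmd2 ⊢
    constructor <;> linarith [hy.1, hy.2, hmd1.1, hmd1.2, hmd2.1, hmd2.2]
  have e3 : |((y - md m₁ - md m₂ : ℤ) : ℝ) / N - 1 / 2| * N = |((y - md m₁ - md m₂ : ℤ) : ℝ) - (N : ℝ) / 2| := by
    rw [← abs_of_pos hNr, ← abs_mul, abs_of_pos hNr]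
    congr 1
    field_simp
  have e4 : |((y - md m₁ - md m₂ : ℤ) : ℝ) / N - 1 / 2| * N ≤ κ * w + 3 / 2 := by
    rw [e3]
    exact e2
  refine ⟨e4, ?_⟩
  have h1 : |((y - md m₁ - md m₂ : ℤ) : ℝ) / N - 1 / 2| * N ≤ 1 / 2 * N := by
    refine e4.trans ?_
    have h2 : (n : ℝ) ≤ 2 * N := by exact_mod_cast hN
    have h3 : (24 : ℝ) ≤ n := by exact_mod_cast hn24
    linarith
  exact le_of_mul_le_mul_right h1 hNr

/-- The displacements of the blocks are cheap. -/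
theorem block_cheap (hμ : Pool.Agent.W_7d29a1_h47.EM μ) {n N τ : ℕ} {κ κ₀ c : ℝ} {z : ℤ} (hτ1 : 1 ≤ τ) (hτn : τ ≤ n)
    (hN : n ≤ 2 * N) (hc : |c - 1 / 2| * N ≤ κ * wd μ n + 3 / 2) (hκ0 : 0 ≤ κ) (hκκ : 8 * κ ≤ κ₀) (hw : 1 ≤ κ * wd μ τ)
    (hz : |(z : ℝ) - c * τ| ≤ 1) : |(z : ℝ) - τ / 2| ≤ κ₀ * wd μ τ := by
  have hnr : (0 : ℝ) < n := by exact_mod_cast (by omega : 0 < n)
  have hτr : (0 : ℝ) < τ := by exact_mod_cast hτ1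
  have hN2r : (n : ℝ) ≤ 2 * N := by exact_mod_cast hN
  have hvn := vA_le_two' hμ hτ1 hτn
  have hwτ := wd_nonneg hμ τ
  have h4 : (τ : ℝ) ≤ n := by exact_mod_cast hτn
  have e1 : (z : ℝ) - τ / 2 = ((z : ℝ) - c * τ) + (c - 1 / 2) * τ := by ring
  have e2 : |(c - 1 / 2) * τ| ≤ 4 * κ * wd μ τ + 3 := by
    rw [abs_mul, abs_of_pos hτr]
    have h3 : |c - 1 / 2| * n ≤ 2 * (κ * wd μ n + 3 / 2) := by
      calc |c - 1 / 2| * n ≤ |c - 1 / 2| * (2 * N) := mul_le_mul_of_nonneg_left hN2r (abs_nonneg _)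
        _ = 2 * (|c - 1 / 2| * N) := by ring
        _ ≤ _ := by linarith
    have h5 : |c - 1 / 2| * τ * n ≤ (4 * κ * wd μ τ + 3) * n := by
      calc |c - 1 / 2| * τ * n = (|c - 1 / 2| * n) * τ := by ring
        _ ≤ (2 * (κ * wd μ n + 3 / 2)) * τ := mul_le_mul_of_nonneg_right h3 hτr.le
        _ = 2 * κ * (vA μ 1 n * τ) * n + 3 * τ := by
            unfold wd
            ring
        _ ≤ 2 * κ * (2 * vA μ 1 τ * τ) * n + 3 * n := by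
            refine add_le_add ?_ (by linarith)
            refine mul_le_mul_of_nonneg_right ?_ hnr.le
            refine mul_le_mul_of_nonneg_left ?_ (by positivity)
            exact mul_le_mul_of_nonneg_right hvn hτr.le
        _ = (4 * κ * wd μ τ + 3) * n := by
            unfold wd
            ring
    exact le_of_mul_le_mul_right h5 hnr
  rw [e1]
  calc |((z : ℝ) - c * τ) + (c - 1 / 2) * τ| ≤ |(z : ℝ) - c * τ| + |(c - 1 / 2) * τ| := abs_add_le _ _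
    _ ≤ 1 + (4 * κ * wd μ τ + 3) := add_le_add hz e2
    _ ≤ 8 * κ * wd μ τ := by linarith
    _ ≤ κ₀ * wd μ τ := mul_le_mul_of_nonneg_right hκκ hwτ

/-- The numbers of one step. -/
structure Par (μ : Measure ℝ) (κ₀ κ R₀ Ct s : ℝ) (n m₁ m₂ N τ q k : ℕ) : Prop where
  m1 : 2 ≤ m₁
  m2 : 2 ≤ m₂
  n24 : 24 ≤ n
  sum : n = m₁ + (N + m₂)
  N2 : n ≤ 2 * N
  Nq : N = q * τ
  t1 : 1 ≤ τ
  tn : τ ≤ n
  k0 : 0 < κ
  k8 : κ ≤ 1 / 8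
  kk : 8 * κ ≤ κ₀
  R0 : 0 ≤ R₀
  C0 : 0 ≤ Ct
  s0 : 0 < s
  E1 : 6 * EE μ m₁ ≤ EE μ n
  E2 : 6 * EE μ m₂ ≤ EE μ n
  w1 : 1 ≤ κ * wd μ τ
  sp : (k : ℝ) * ((2 * R₀ + 6) * wd μ τ) ≤ κ / 2 * wd μ m₁
  w12 : wd μ m₁ ≤ 2 * wd μ m₂
  qc : 2 * (q * (Ct * EE μ τ)) ≤ s * EE μ n / 3
  tube : ∀ z : ℤ, 0 ≤ z → z ≤ τ → |(z : ℝ) - τ / 2| ≤ κ₀ * wd μ τ →
    HasPath (Tube 0 ((z : ℝ) / τ) (R₀ * wd μ τ)) 0 τ z ∧ pR μ (Tube 0 ((z : ℝ) / τ) (R₀ * wd μ τ)) 0 τ z ≤ Ct * EE μ τ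

theorem Par.step (hμ : Pool.Agent.W_7d29a1_h47.EM μ) {κ₀ κ R₀ Ct s : ℝ} {n m₁ m₂ N τ q k : ℕ}
    (P : Par μ κ₀ κ R₀ Ct s n m₁ m₂ N τ q k) :
    TT μ κ n s ≤ k * (TT μ κ m₁ (2 * s) + TT μ κ m₂ (2 * s)) + (1 / 2) ^ k := by
  refine TT_le (by
    have h1 := TT_nonneg (μ := μ) κ m₁ (2 * s)
    have h2 := TT_nonneg (μ := μ) κ m₂ (2 * s)
    positivity) fun y hy0 hy1 hy2 => ?_
  obtain ⟨hm1, hm2, hn24, hsum, hN2, hNq, ht1, htn, hk0, hk8, hkk, hR0, hC0, hs0, hE1, hE2, hw1, hsp, hw12, hqc, htube⟩ := P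
  have hE := one_le_EE (μ := μ) n
  have hNpos : 0 < N := by omega
  have hNr : (0 : ℝ) < N := by exact_mod_cast hNpos
  -- the slope
  have hwn : κ * wd μ n ≤ n / 16 := by
    have h1 := wd_half hμ n
    have h2 := wd_nonneg hμ n
    calc κ * wd μ n ≤ 1 / 8 * (n / 2) := mul_le_mul hk8 h1 h2 (by norm_num)
      _ = n / 16 := by ring
  obtain ⟨hc12, hc12'⟩ := slope_bounds (m₁ := m₁) (m₂ := m₂) hsum hN2 hn24 hy2 hwn
  obtain ⟨Z, hZ⟩ : ∃ Z : ℤ, Z = y - md m₁ - md m₂ := ⟨_, rfl⟩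
  rw [← hZ] at hc12 hc12'
  obtain ⟨c, hc⟩ : ∃ c : ℝ, c = (Z : ℝ) / N := ⟨_, rfl⟩
  rw [← hc] at hc12 hc12'
  have hcN : c * N = Z := by rw [hc]; field_simp
  have hc0 : 0 ≤ c := by linarith [(abs_le.1 hc12').1]
  have hc1 : c ≤ 1 := by linarith [(abs_le.1 hc12').2]
  have hZ0 : 0 ≤ Z := by
    have : (0 : ℝ) ≤ Z := by rw [← hcN]; positivity
    exact_mod_cast this
  have hZ1 : Z ≤ N := by
    have : (Z : ℝ) ≤ N := by
      rw [← hcN]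
      exact mul_le_of_le_one_left hNr.le hc1
    exact_mod_cast this
  have hbp : Z = bp c τ q := by
    unfold bp
    rw [← hNq, hcN, Int.floor_intCast]
  have hblock : ∀ z : ℤ, 0 ≤ z → z ≤ τ → |(z : ℝ) - c * τ| ≤ 1 →
      HasPath (Tube 0 ((z : ℝ) / τ) (R₀ * wd μ τ)) 0 τ z ∧ pR μ (Tube 0 ((z : ℝ) / τ) (R₀ * wd μ τ)) 0 τ z ≤ Ct * EE μ τ :=
    fun z hz0 hz1 hz2 => htube z hz0 hz1 (block_cheap hμ ht1 htn hN2 hc12 hk0.le hkk hw1 hz2)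
  clear hc12 hc12' htube hc hwn hy0 hy1 hy2 hn24 hN2 hkk
  -- the spacing
  obtain ⟨D, hD⟩ : ∃ D : ℝ, D = R₀ * wd μ τ := ⟨_, rfl⟩
  rw [← hD] at hblock
  have hwτ : 8 ≤ wd μ τ := by nlinarith [wd_nonneg hμ τ]
  have hD0 : 0 ≤ D := by
    rw [hD]
    exact mul_nonneg hR0 (by linarith)
  obtain ⟨Sp, hSp⟩ : ∃ Sp : ℤ, Sp = ⌈2 * (D + 2)⌉ + 1 := ⟨_, rfl⟩
  have hSp1 : 2 * (D + 2) < Sp := by
    rw [hSp]
    push_cast
    have := Int.le_ceil (2 * (D + 2))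
    linarith
  have hSp2 : (Sp : ℝ) ≤ (2 * R₀ + 6) * wd μ τ := by
    rw [hSp]
    push_cast
    have h1 := Int.ceil_lt_add_one (2 * (D + 2))
    have h2 : (2 * R₀ + 6) * wd μ τ = 2 * D + 6 * wd μ τ := by
      rw [hD]
      ring
    rw [h2]
    linarith
  have hSp0 : (0 : ℝ) < Sp := by linarith
  have hξ : ∀ j : ℕ, j < k → 0 ≤ (j : ℝ) * Sp ∧ (j : ℝ) * Sp ≤ κ / 2 * wd μ m₁ := by
    intro j hj
    refine ⟨by positivity, ?_⟩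
    have hjk : (j : ℝ) ≤ k := by exact_mod_cast hj.le
    exact (mul_le_mul hjk hSp2 hSp0.le (Nat.cast_nonneg _)).trans hsp
  clear hsp hSp2 hw1 hwτ hSp hD
  have hw1' := wd_nonneg hμ m₁
  have hξ1 : ∀ j : ℕ, j < k → (j : ℝ) * Sp ≤ κ * wd μ m₁ := by
    intro j hj
    have h1 := (hξ j hj).2
    have h2 : 0 ≤ κ * wd μ m₁ := by positivity
    linarith
  have hξ2 : ∀ j : ℕ, j < k → (j : ℝ) * Sp ≤ κ * wd μ m₂ := by
    intro j hj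
    have h1 := (hξ j hj).2
    have h2 := mul_le_mul_of_nonneg_left hw12 (show 0 ≤ κ / 2 by linarith)
    linarith
  -- the threshold
  obtain ⟨t, ht⟩ : ∃ t : ℝ, t = s * EE μ n / 3 := ⟨_, rfl⟩
  rw [← ht] at hqc
  have hsE : 0 < s * EE μ n := mul_pos hs0 (by linarith)
  have ht0 : 0 < t := by
    rw [ht]
    linarith
  have hts1 : 2 * s * EE μ m₁ ≤ t := by
    have := mul_le_mul_of_nonneg_left hE1 hs0.le
    rw [ht]
    linarith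
  have hts2 : 2 * s * EE μ m₂ ≤ t := by
    have := mul_le_mul_of_nonneg_left hE2 hs0.le
    rw [ht]
    linarith
  have hcast : ∀ j : ℕ, (((j : ℤ) * Sp : ℤ) : ℝ) = (j : ℝ) * Sp := fun j => by push_cast; rfl
  have hlanes := lanes hμ (c := c) (D := D) (K := Ct * EE μ τ) (t := t) (τ := τ) (q := q) (N := N) (Z := Z)
    (fun j => ((m₁ : ℤ), md m₁ + (j : ℤ) * Sp)) k ht1 hc0 hc1 hblock hNq hbp ht0 hqc (fun i => rfl) (fun i j hij => by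
      have h1 : ((((m₁ : ℤ), md m₁ + (j : ℤ) * Sp) : Pt).2 - (((m₁ : ℤ), md m₁ + (i : ℤ) * Sp) : Pt).2 : ℤ) =
          ((j : ℤ) - i) * Sp := by
        show (md m₁ + (j : ℤ) * Sp) - (md m₁ + (i : ℤ) * Sp) = _
        ring
      rw [h1]
      have h2 : (1 : ℝ) ≤ (j : ℝ) - i := by
        have : ((i + 1 : ℕ) : ℝ) ≤ j := by exact_mod_cast hij
        push_cast at this
        linarith
      push_cast
      nlinarith)
  have hpos : ∀ j : ℕ, ∀ η, 0 < WR μ 0 (Tube ((m₁ : ℤ), md m₁ + (j : ℤ) * Sp) c (D + 2)) η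
      ((m₁ : ℤ), md m₁ + (j : ℤ) * Sp) N Z := by
    intro j η
    have h1 := (lane_mean (μ := μ) hμ ((m₁ : ℤ), md m₁ + (j : ℤ) * Sp) ht1 hc0 hc1 hblock q).1 η
    rw [← hbp, ← hNq] at h1
    exact h1
  have hu := lane_union (μ := μ) (n := n) (m₁ := m₁) (N := N) (m₂ := m₂) (k := k) (y := y) (Z := Z) hsum
    (y₁ := fun j => md m₁ + (j : ℤ) * Sp) (y₂ := fun j => md m₂ - (j : ℤ) * Sp) (t := t)
    (q₁ := TT μ κ m₁ (2 * s)) (q₂ := TT μ κ m₂ (2 * s)) (q₃ := (1 / 2) ^ k)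
    (fun j => Tube ((m₁ : ℤ), md m₁ + (j : ℤ) * Sp) c (D + 2))
    (fun j => by rw [hZ]; ring)
    (fun j hj => (conn_right hμ hm1 (hcast j) (hξ j hj).1 (hξ1 j hj) hk8 hk0.le hts1).1) hZ0 hZ1
    (fun j hj => (conn_left hμ hm2 (hcast j) (hξ j hj).1 (hξ2 j hj) hk8 hk0.le hts2).1) (fun j _ η => hpos j η)
    (fun j hj => (conn_right hμ hm1 (hcast j) (hξ j hj).1 (hξ1 j hj) hk8 hk0.le hts1).2)
    (fun j hj => (conn_left hμ hm2 (hcast j) (hξ j hj).1 (hξ2 j hj) hk8 hk0.le hts2).2) hlanes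
  have e3 : 3 * t = s * EE μ n := by rw [ht]; ring
  rw [e3] at hu
  exact hu

end Pool.Agent.W_7d29a1_h10
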